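import Mathlib

/-!
# Project an (MP_263b92_ag): Laurent series, basic API

`LS R` is the ring of Laurent series in one variable `s` over `R` (a copy of `HahnSeries ℤ R`, in order to avoid the
instance diamond between `HahnSeries.powerSeriesAlgebra` and `HahnSeries.instModule`). Use `cf f n` (coefficient of `s^n`),
`LS.ext`, `LS.C`, `mono`, `ofFun` and the lemmas below; do not unfold to `HahnSeries` unless necessary.
-/

namespace AN

open scoped Classical

noncomputable section

/-- Laurent series in `s` over `R` -/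
def LS (R : Type) [CommRing R] : Type := HahnSeries ℤ R

instance (R : Type) [CommRing R] : CommRing (LS R) := inferInstanceAs (CommRing (HahnSeries ℤ R))

instance (R : Type) [CommRing R] : Module R (LS R) := inferInstanceAs (Module R (HahnSeries ℤ R))

instance (R : Type) [CommRing R] [Nontrivial R] : Nontrivial (LS R) :=
  inferInstanceAs (Nontrivial (HahnSeries ℤ R))

instance (R : Type) [CommRing R] [IsDomain R] : IsDomain (LS R) :=
  inferInstanceAs (IsDomain (HahnSeries ℤ R))

instance (K : Type) [Field K] : Field (LS K) := inferInstanceAs (Field (HahnSeries ℤ K))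

variable {R S : Type} [CommRing R] [CommRing S]

/-- the coefficient of `s^n` -/
def cf (f : LS R) (n : ℤ) : R := HahnSeries.coeff (f : HahnSeries ℤ R) n

@[ext] theorem LS.ext {f g : LS R} (h : ∀ n, cf f n = cf g n) : f = g :=
  HahnSeries.ext (funext h)

/-- constants -/
def LS.C : R →+* LS R := (HahnSeries.C : R →+* HahnSeries ℤ R)

instance (R : Type) [CommRing R] : Algebra R (LS R) where
  algebraMap := LS.C
  commutes' := fun _ _ => mul_comm _ _
  smul_def' := fun r x => (HahnSeries.C_mul_eq_smul (Γ := ℤ) (r := r) (x := x)).symm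

theorem algebraMap_eq : algebraMap R (LS R) = LS.C := rfl

/-- the monomial `c s^n` -/
def mono (n : ℤ) (c : R) : LS R := (HahnSeries.single n c : HahnSeries ℤ R)

@[simp] theorem cf_zero (n : ℤ) : cf (0 : LS R) n = 0 := rfl
@[simp] theorem cf_add (f g : LS R) (n : ℤ) : cf (f + g) n = cf f n + cf g n := rfl
@[simp] theorem cf_neg (f : LS R) (n : ℤ) : cf (-f) n = -cf f n := rfl
@[simp] theorem cf_sub (f g : LS R) (n : ℤ) : cf (f - g) n = cf f n - cf g n := by
  simp [sub_eq_add_neg]
@[simp] theorem cf_smul (c : R) (f : LS R) (n : ℤ) : cf (c • f) n = c * cf f n := rfl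

theorem cf_mono (m n : ℤ) (c : R) : cf (mono m c) n = if n = m then c else 0 := by
  unfold cf mono
  by_cases h : n = m
  · subst h; simp
  · rw [if_neg h]; exact HahnSeries.coeff_single_of_ne h

theorem C_eq_mono (c : R) : LS.C c = mono 0 c := rfl

theorem cf_C (c : R) (n : ℤ) : cf (LS.C c) n = if n = 0 then c else 0 := by
  rw [C_eq_mono, cf_mono]

theorem cf_one (n : ℤ) : cf (1 : LS R) n = if n = 0 then 1 else 0 := by
  have : (1 : LS R) = LS.C 1 := (map_one LS.C).symm
  rw [this, cf_C]

theorem C_mul (c : R) (f : LS R) : LS.C c * f = c • f :=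
  HahnSeries.C_mul_eq_smul (Γ := ℤ) (r := c) (x := f)

@[simp] theorem cf_C_mul (c : R) (f : LS R) (n : ℤ) : cf (LS.C c * f) n = c * cf f n := by
  rw [C_mul, cf_smul]

theorem cf_sum {ι : Type} (s : Finset ι) (f : ι → LS R) (n : ℤ) :
    cf (∑ i ∈ s, f i) n = ∑ i ∈ s, cf (f i) n := by
  induction s using Finset.induction_on with
  | empty => simp
  | insert a s ha ih => rw [Finset.sum_insert ha, Finset.sum_insert ha, cf_add, ih]

theorem mono_mul_mono (m n : ℤ) (c d : R) : mono m c * mono n d = mono (m + n) (c * d) :=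
  HahnSeries.single_mul_single

theorem mono_add (n : ℤ) (c d : R) : mono n (c + d) = mono n c + mono n d := by
  ext m; rw [cf_add, cf_mono, cf_mono, cf_mono]; split_ifs <;> simp

theorem mono_zero (n : ℤ) : mono n (0 : R) = 0 := by
  ext m; rw [cf_mono]; simp

theorem smul_mono (n : ℤ) (c d : R) : c • mono n d = mono n (c * d) := by
  ext m; rw [cf_smul, cf_mono, cf_mono]; split_ifs <;> simp

theorem cf_mono_mul (m n : ℤ) (c : R) (f : LS R) : cf (mono m c * f) n = c * cf f (n - m) :=
  HahnSeries.coeff_single_mul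

/-- Laurent series are bounded below -/
theorem exists_lb (f : LS R) : ∃ N : ℤ, ∀ n < N, cf f n = 0 := by
  by_cases hf : f = 0
  · exact ⟨0, fun n _ => by rw [hf, cf_zero]⟩
  · exact ⟨HahnSeries.order (f : HahnSeries ℤ R), fun n hn => HahnSeries.coeff_eq_zero_of_lt_order hn⟩

theorem exists_lb_nat (f : LS R) : ∃ N : ℕ, ∀ n : ℤ, n < -(N : ℤ) → cf f n = 0 := by
  obtain ⟨N, hN⟩ := exists_lb f
  refine ⟨N.natAbs, fun n hn => hN n ?_⟩
  omega

/-- the Laurent series with given coefficients -/
def ofFun (f : ℤ → R) (N : ℤ) (h : ∀ n < N, f n = 0) : LS R :=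
  (HahnSeries.ofSuppBddBelow f ⟨N, fun n hn => by
    by_contra hc
    exact hn (h n (not_le.mp hc))⟩ : HahnSeries ℤ R)

@[simp] theorem cf_ofFun (f : ℤ → R) (N : ℤ) (h : ∀ n < N, f n = 0) (n : ℤ) :
    cf (ofFun f N h) n = f n := rfl

/-- `f` has no term below `s^m`; the module `s^m R[[s]]` -/
def GE (R : Type) [CommRing R] (m : ℤ) : Submodule R (LS R) where
  carrier := {f | ∀ n < m, cf f n = 0}
  zero_mem' := fun n _ => cf_zero n
  add_mem' := fun {f g} hf hg n hn => by rw [cf_add, hf n hn, hg n hn, add_zero]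
  smul_mem' := fun c f hf n hn => by rw [cf_smul, hf n hn, mul_zero]

theorem mem_GE {m : ℤ} {f : LS R} : f ∈ GE R m ↔ ∀ n < m, cf f n = 0 := Iff.rfl

/-- power series: `R[[s]]` -/
abbrev PS (R : Type) [CommRing R] : Submodule R (LS R) := GE R 0

theorem GE_mono {m n : ℤ} (h : m ≤ n) : GE R n ≤ GE R m := fun _ hf k hk => hf k (lt_of_lt_of_le hk h)

theorem hs_coeff_mul (f g : HahnSeries ℤ R) (n : ℤ) {a b : ℤ} (hf : ∀ m < a, f.coeff m = 0)
    (hg : ∀ m < b, g.coeff m = 0) :
    (f * g).coeff n = ∑ i ∈ Finset.Icc a (n - b), f.coeff i * g.coeff (n - i) := by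
  rw [HahnSeries.coeff_mul]
  refine Finset.sum_bij_ne_zero (fun ij _ _ => ij.1) ?_ ?_ ?_ ?_
  · intro ij hij hne
    have hij' : ij.1 + ij.2 = n := by
      simpa using (Finset.mem_antidiagonal.mp hij).2.2
    rw [Finset.mem_Icc]
    constructor
    · by_contra hc
      exact hne (by rw [hf ij.1 (not_le.mp hc), zero_mul])
    · by_contra hc
      exact hne (by rw [hg ij.2 (by omega), mul_zero])
  · intro ij hij _ ij' hij' _ heq
    have h2 : ij.1 + ij.2 = n := by simpa using (Finset.mem_antidiagonal.mp hij).2.2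
    have h3 : ij'.1 + ij'.2 = n := by simpa using (Finset.mem_antidiagonal.mp hij').2.2
    have h4 : ij.1 = ij'.1 := heq
    ext
    · exact h4
    · omega
  · intro i hi hne
    refine ⟨(i, n - i), ?_, hne, rfl⟩
    rw [Finset.mem_antidiagonal]
    refine ⟨?_, ?_, by show i + (n - i) = n; omega⟩
    · intro h
      apply hne
      rw [h, zero_mul]
    · intro h
      apply hne
      rw [h, mul_zero]
  · intro ij hij _
    have h2 : ij.1 + ij.2 = n := by simpa using (Finset.mem_antidiagonal.mp hij).2.2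
    rw [show ij.2 = n - ij.1 by omega]

theorem cf_mul_finset (f g : LS R) (n : ℤ) {a b : ℤ} (hf : f ∈ GE R a) (hg : g ∈ GE R b) :
    cf (f * g) n = ∑ i ∈ Finset.Icc a (n - b), cf f i * cf g (n - i) :=
  hs_coeff_mul (R := R) f g n hf hg

theorem GE_mul {a b : ℤ} {f g : LS R} (hf : f ∈ GE R a) (hg : g ∈ GE R b) : f * g ∈ GE R (a + b) := by
  intro n hn
  rw [cf_mul_finset f g n hf hg, Finset.Icc_eq_empty (by omega), Finset.sum_empty]

/-- the leading coefficient of a product -/
theorem cf_mul_lead {a b : ℤ} {f g : LS R} (hf : f ∈ GE R a) (hg : g ∈ GE R b) :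
    cf (f * g) (a + b) = cf f a * cf g b := by
  rw [cf_mul_finset f g (a + b) hf hg]
  have h : Finset.Icc a (a + b - b) = {a} := by
    rw [add_sub_cancel_right]; exact Finset.Icc_self a
  rw [h, Finset.sum_singleton]
  congr 2
  omega

theorem PS_mul {f g : LS R} (hf : f ∈ PS R) (hg : g ∈ PS R) : f * g ∈ PS R := by
  simpa using GE_mul hf hg

theorem C_mem_PS (c : R) : LS.C c ∈ PS R := by
  intro n hn
  rw [cf_C, if_neg (by omega)]

theorem mono_mem_GE (m : ℤ) (c : R) : mono m c ∈ GE R m := by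
  intro n hn
  rw [cf_mono, if_neg (by omega)]

theorem one_mem_PS : (1 : LS R) ∈ PS R := by
  intro n hn
  rw [cf_one, if_neg (by omega)]

/-- change of coefficients, additive -/
def cm (φ : R →+ S) : LS R →+ LS S where
  toFun f := (HahnSeries.map (f : HahnSeries ℤ R) φ : HahnSeries ℤ S)
  map_zero' := by
    apply LS.ext
    intro n
    show φ 0 = 0
    exact map_zero φ
  map_add' f g := by
    apply LS.ext
    intro n
    show φ (cf (f + g) n) = φ (cf f n) + φ (cf g n)
    rw [cf_add, map_add]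

@[simp] theorem cf_cm (φ : R →+ S) (f : LS R) (n : ℤ) : cf (cm φ f) n = φ (cf f n) := rfl

theorem cm_mem_GE (φ : R →+ S) {m : ℤ} {f : LS R} (hf : f ∈ GE R m) : cm φ f ∈ GE S m := by
  intro n hn
  rw [cf_cm, hf n hn, map_zero]

/-- change of coefficients along a ring homomorphism -/
def mp (φ : R →+* S) : LS R →+* LS S where
  toFun f := cm φ.toAddMonoidHom f
  map_zero' := map_zero _
  map_add' f g := map_add _ f g
  map_one' := by
    apply LS.ext
    intro n
    rw [cf_cm, cf_one, cf_one]
    show φ _ = _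
    split_ifs <;> simp
  map_mul' f g := by
    apply LS.ext
    intro n
    obtain ⟨a, ha⟩ := exists_lb f
    obtain ⟨b, hb⟩ := exists_lb g
    rw [cf_cm, cf_mul_finset f g n ha hb,
      cf_mul_finset _ _ n (cm_mem_GE φ.toAddMonoidHom ha) (cm_mem_GE φ.toAddMonoidHom hb)]
    show φ _ = _
    rw [map_sum]
    exact Finset.sum_congr rfl fun i _ => by rw [map_mul]; rfl

@[simp] theorem cf_mp (φ : R →+* S) (f : LS R) (n : ℤ) : cf (mp φ f) n = φ (cf f n) := rfl

theorem mp_C (φ : R →+* S) (c : R) : mp φ (LS.C c) = LS.C (φ c) := by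
  ext n; rw [cf_mp, cf_C, cf_C]; split_ifs <;> simp

theorem mp_smul (φ : R →+* S) (c : R) (f : LS R) : mp φ (c • f) = φ c • mp φ f := by
  ext n; rw [cf_mp, cf_smul, cf_smul, cf_mp, map_mul]

theorem mp_mono (φ : R →+* S) (n : ℤ) (c : R) : mp φ (mono n c) = mono n (φ c) := by
  ext m; rw [cf_mp, cf_mono, cf_mono]; split_ifs <;> simp

theorem mp_mem_GE (φ : R →+* S) {m : ℤ} {f : LS R} (hf : f ∈ GE R m) : mp φ f ∈ GE S m :=
  cm_mem_GE _ hf

theorem mp_injective {φ : R →+* S} (h : Function.Injective φ) : Function.Injective (mp φ) := by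
  intro f g hfg
  ext n
  apply h
  rw [← cf_mp, ← cf_mp, hfg]

/-- the formal derivative `d/ds` -/
def dd : LS R →ₗ[R] LS R where
  toFun f := ofFun (fun n => ((n + 1 : ℤ) : R) * cf f (n + 1)) ((exists_lb f).choose - 1) fun n hn => by
    rw [(exists_lb f).choose_spec (n + 1) (by omega), mul_zero]
  map_add' f g := by
    apply LS.ext
    intro n
    simp only [cf_ofFun, cf_add]
    ring
  map_smul' c f := by
    apply LS.ext
    intro n
    simp only [cf_ofFun, cf_smul, RingHom.id_apply]
    ring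

theorem cf_dd (f : LS R) (n : ℤ) : cf (dd f) n = ((n + 1 : ℤ) : R) * cf f (n + 1) := rfl

/-- the residue: the coefficient of `s^(-1)` -/
def res (f : LS R) : R := cf f (-1)

theorem res_add (f g : LS R) : res (f + g) = res f + res g := rfl
theorem res_sub (f g : LS R) : res (f - g) = res f - res g := cf_sub f g _
theorem res_smul (c : R) (f : LS R) : res (c • f) = c * res f := rfl
theorem res_zero : res (0 : LS R) = 0 := rfl
theorem res_sum {ι : Type} (s : Finset ι) (f : ι → LS R) : res (∑ i ∈ s, f i) = ∑ i ∈ s, res (f i) :=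
  cf_sum s f _

theorem res_dd (f : LS R) : res (dd f) = 0 := by
  unfold res
  rw [cf_dd]
  simp

theorem res_PS {f : LS R} (hf : f ∈ PS R) : res f = 0 := hf _ (by omega)

theorem dd_mem_GE {m : ℤ} {f : LS R} (hf : f ∈ GE R m) : dd f ∈ GE R (m - 1) := by
  intro n hn
  rw [cf_dd, hf (n + 1) (by omega), mul_zero]

theorem dd_mem_PS {f : LS R} (hf : f ∈ PS R) : dd f ∈ PS R := by
  intro n hn
  rw [cf_dd]
  rcases eq_or_ne n (-1) with rfl | h
  · simp
  · rw [hf (n + 1) (by omega), mul_zero]

theorem dd_mono (n : ℤ) (c : R) : dd (mono n c) = mono (n - 1) ((n : R) * c) := by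
  ext m
  rw [cf_dd, cf_mono, cf_mono]
  by_cases h : m + 1 = n
  · rw [if_pos h, if_pos (by omega), h]
  · rw [if_neg h, if_neg (by omega), mul_zero]

theorem dd_C (c : R) : dd (LS.C c) = 0 := by
  rw [C_eq_mono, dd_mono]
  simp [mono_zero]

theorem dd_one : dd (1 : LS R) = 0 := by
  rw [← map_one LS.C, dd_C]

/-- the product rule -/
theorem dd_mul (f g : LS R) : dd (f * g) = dd f * g + f * dd g := by
  ext n
  obtain ⟨a, ha⟩ := exists_lb f
  obtain ⟨b, hb⟩ := exists_lb g
  have hf : f ∈ GE R a := ha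
  have hg : g ∈ GE R b := hb
  rw [cf_dd, cf_add, cf_mul_finset f g (n + 1) hf hg,
    cf_mul_finset (dd f) g n (dd_mem_GE hf) hg, cf_mul_finset f (dd g) n hf (dd_mem_GE hg)]
  have h1 : ∑ i ∈ Finset.Icc (a - 1) (n - b), cf (dd f) i * cf g (n - i) =
      ∑ i ∈ Finset.Icc a (n + 1 - b), (i : R) * (cf f i * cf g (n + 1 - i)) := by
    refine Finset.sum_bij (fun i _ => i + 1) ?_ ?_ ?_ ?_
    · intro i hi; rw [Finset.mem_Icc] at hi ⊢; omega
    · intro i _ j _ h; simpa using h
    · intro i hi
      rw [Finset.mem_Icc] at hi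
      exact ⟨i - 1, by rw [Finset.mem_Icc]; omega, by ring⟩
    · intro i _
      rw [cf_dd, show n + 1 - (i + 1) = n - i by ring]
      ring
  have h2 : ∑ i ∈ Finset.Icc a (n - (b - 1)), cf f i * cf (dd g) (n - i) =
      ∑ i ∈ Finset.Icc a (n + 1 - b), ((n + 1 - i : ℤ) : R) * (cf f i * cf g (n + 1 - i)) := by
    rw [show n - (b - 1) = n + 1 - b by ring]
    refine Finset.sum_congr rfl fun i _ => ?_
    rw [cf_dd, show n - i + 1 = n + 1 - i by ring]
    ring
  rw [h1, h2, Finset.mul_sum, ← Finset.sum_add_distrib]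
  refine Finset.sum_congr rfl fun i _ => ?_
  push_cast
  ring

/-- `dd` as a derivation -/
def ddD (R : Type) [CommRing R] : Derivation R (LS R) (LS R) :=
  Derivation.mk' dd fun f g => by
    rw [dd_mul]
    simp only [smul_eq_mul]
    ring

theorem ddD_apply (f : LS R) : ddD R f = dd f := rfl

theorem dd_pow (f : LS R) (n : ℕ) : dd (f ^ n) = (n : LS R) * f ^ (n - 1) * dd f := by
  have h := (ddD R).leibniz_pow f n
  rw [ddD_apply, ddD_apply] at h
  rw [h]
  simp [mul_assoc]

theorem dd_pow_char (p : ℕ) [CharP R p] (f : LS R) (m : ℕ) (hm : p ∣ m) : dd (f ^ m) = 0 := by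
  have hc : ((m : ℕ) : LS R) = 0 := by
    have : ((m : ℕ) : LS R) = LS.C ((m : ℕ) : R) := (map_natCast LS.C m).symm
    rw [this, (CharP.cast_eq_zero_iff R p m).mpr hm, map_zero]
  rw [dd_pow, hc]
  ring

theorem dd_mp (φ : R →+* S) (f : LS R) : dd (mp φ f) = mp φ (dd f) := by
  ext n
  rw [cf_dd, cf_mp, cf_mp, cf_dd, map_mul]
  simp

theorem dd_cm (φ : R →+ S) (f : LS R) : dd (cm φ f) = cm φ (dd f) := by
  ext n
  rw [cf_dd, cf_cm, cf_cm, cf_dd, ← zsmul_eq_mul, ← zsmul_eq_mul, map_zsmul]

theorem res_mp (φ : R →+* S) (f : LS R) : res (mp φ f) = φ (res f) := rfl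
theorem res_cm (φ : R →+ S) (f : LS R) : res (cm φ f) = φ (res f) := rfl

/-- a derivation of the coefficients, acting on the coefficients of Laurent series -/
def cD (D : Derivation ℤ R R) : LS R →+ LS R := cm D.toLinearMap.toAddMonoidHom

@[simp] theorem cf_cD (D : Derivation ℤ R R) (f : LS R) (n : ℤ) : cf (cD D f) n = D (cf f n) := rfl

theorem cD_mul (D : Derivation ℤ R R) (f g : LS R) : cD D (f * g) = cD D f * g + f * cD D g := by
  ext n
  obtain ⟨a, ha⟩ := exists_lb f
  obtain ⟨b, hb⟩ := exists_lb g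
  have hf : f ∈ GE R a := ha
  have hg : g ∈ GE R b := hb
  rw [cf_cD, cf_add, cf_mul_finset f g n hf hg,
    cf_mul_finset (cD D f) g n (cm_mem_GE _ hf) hg, cf_mul_finset f (cD D g) n hf (cm_mem_GE _ hg),
    map_sum, ← Finset.sum_add_distrib]
  refine Finset.sum_congr rfl fun i _ => ?_
  rw [D.leibniz, cf_cD, cf_cD]
  simp only [smul_eq_mul]
  ring

theorem cD_C (D : Derivation ℤ R R) (c : R) : cD D (LS.C c) = LS.C (D c) := by
  ext n
  rw [cf_cD, cf_C, cf_C]
  split_ifs <;> simp

theorem cD_smul (D : Derivation ℤ R R) (c : R) (f : LS R) : cD D (c • f) = D c • f + c • cD D f := by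
  rw [← C_mul, cD_mul, cD_C, C_mul, C_mul]

theorem cD_mono (D : Derivation ℤ R R) (n : ℤ) (c : R) : cD D (mono n c) = mono n (D c) := by
  ext m
  rw [cf_cD, cf_mono, cf_mono]
  split_ifs <;> simp

theorem dd_cD (D : Derivation ℤ R R) (f : LS R) : dd (cD D f) = cD D (dd f) := dd_cm _ f

theorem res_cD (D : Derivation ℤ R R) (f : LS R) : res (cD D f) = D (res f) := rfl

theorem cD_mem_GE (D : Derivation ℤ R R) {m : ℤ} {f : LS R} (hf : f ∈ GE R m) : cD D f ∈ GE R m :=
  cm_mem_GE _ hf

/-- Frobenius on Laurent series in characteristic `p` -/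
theorem cf_pow_char (p : ℕ) [hp : Fact p.Prime] [CharP R p] (f : LS R) (n : ℤ) :
    cf (f ^ p) n = if (p : ℤ) ∣ n then (cf f (n / p)) ^ p else 0 := by
  have hp0 : (0 : ℤ) < p := by exact_mod_cast hp.out.pos
  have : CharP (LS R) p := by
    refine charP_of_injective_ringHom (f := (LS.C : R →+* LS R)) ?_ p
    exact HahnSeries.C_injective
  -- reduce to finitely many monomials
  obtain ⟨a, ha⟩ := exists_lb f
  let M : ℤ := max a (n + 1) + |a| + |n| + 1
  let P : LS R := ∑ i ∈ Finset.Ico a M, mono i (cf f i)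
  let Q : LS R := f - P
  have hM : a ≤ M := by
    have := abs_nonneg a; have := abs_nonneg n; have := le_max_left a (n + 1); omega
  have hcP : ∀ m, cf P m = if a ≤ m ∧ m < M then cf f m else 0 := by
    intro m
    simp only [P, cf_sum, cf_mono]
    rw [Finset.sum_ite_eq]
    simp [Finset.mem_Ico]
  have hQ : Q ∈ GE R M := by
    intro m hm
    simp only [Q, cf_sub]
    rw [hcP]
    by_cases h : a ≤ m
    · rw [if_pos ⟨h, hm⟩, sub_self]
    · rw [if_neg (fun h' => h h'.1), ha m (by omega), sub_zero]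
  have hQp : ∀ j : ℕ, Q ^ j ∈ GE R (j * M) := by
    intro j
    induction j with
    | zero => simpa using (one_mem_PS (R := R))
    | succ j ih =>
      rw [pow_succ]
      have := GE_mul ih hQ
      convert this using 2
      push_cast
      ring
  have hMn : n < p * M := by
    have h1 : n < M := by
      have := abs_nonneg a; have := abs_nonneg n; have := le_max_right a (n + 1); omega
    have h2 : 0 < M := by
      have := abs_nonneg a; have := le_abs_self n; have := neg_abs_le n
      have := le_max_right a (n + 1); omega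
    have h3 : M ≤ p * M := by
      have : (1 : ℤ) ≤ p := by omega
      nlinarith
    omega
  have hf : f = P + Q := by simp [Q]
  have h1 : f ^ p = P ^ p + Q ^ p := by
    rw [hf]; exact add_pow_char _ _ p
  have h2 : P ^ p = ∑ i ∈ Finset.Ico a M, mono (p * i) (cf f i ^ p) := by
    simp only [P]
    rw [sum_pow_char p]
    refine Finset.sum_congr rfl fun i _ => ?_
    have : ∀ j : ℕ, (mono i (cf f i)) ^ j = mono (j * i) (cf f i ^ j) := by
      intro j
      induction j with
      | zero => simp [← C_eq_mono]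
      | succ j ih =>
        rw [pow_succ, ih, mono_mul_mono, pow_succ]
        congr 1
        push_cast
        ring
    exact this p
  rw [h1, cf_add, hQp p n hMn, add_zero, h2, cf_sum]
  simp only [cf_mono]
  by_cases hd : (p : ℤ) ∣ n
  · obtain ⟨m, rfl⟩ := hd
    rw [if_pos (dvd_mul_right _ _), Int.mul_ediv_cancel_left _ hp0.ne']
    have : ∀ i ∈ Finset.Ico a M, (if (p : ℤ) * m = p * i then cf f i ^ p else 0) =
        if i = m then cf f m ^ p else 0 := by
      intro i _
      by_cases h : i = m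
      · subst h; simp
      · rw [if_neg h, if_neg]
        intro h'
        exact h (mul_left_cancel₀ hp0.ne' h').symm
    rw [Finset.sum_congr rfl this, Finset.sum_ite_eq' ]
    by_cases hm : m ∈ Finset.Ico a M
    · rw [if_pos hm]
    · rw [if_neg hm]
      rw [Finset.mem_Ico] at hm
      have : cf f m = 0 := by
        apply ha
        by_contra hc
        apply hm
        refine ⟨not_lt.mp hc, ?_⟩
        by_contra hc'
        have h5 : M ≤ m := not_lt.mp hc'
        have h6 : (p : ℤ) * M ≤ p * m := by nlinarith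
        omega
      rw [this, zero_pow hp.out.ne_zero]
  · rw [if_neg hd]
    refine Finset.sum_eq_zero fun i _ => ?_
    rw [if_neg]
    rintro rfl
    exact hd (dvd_mul_right _ _)

end

end AN
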