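import Pool.Agent.helper87.AU.GDefs

/-!
# MP_263b92_ag, Q1: the statement

Curves (smooth, projective, connected) over an algebraically closed field `k` are given by their function fields `F`
(`IsFF k F`), points by the places `Place k F`, the genus by `IsGenus` (definitions of project au,
`Pool/Agent/helper53/AU/Defs.lean`).
-/

namespace AN

open Pool.Agent.helper53.AU

noncomputable section

/-- The `p`-rank of the curve is 0, that is `Jac(C)[p](k) = 0`: there is no divisor class of order `p`. In terms of functions: if
`(f) = p D` for a divisor `D` (all orders of `f` are divisible by `p`) then `D` is principal, `D = (h)`; then `f = c h^p`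
with a constant `c`, and constants are `p`-th powers. -/
def PRankZero (p : ℕ) (k F : Type) [Field k] [Field F] [Algebra k F] : Prop :=
  ∀ f : F, f ≠ 0 → (∀ P : Place k F, (p : ℤ) ∣ P.ord f) → ∃ h : F, f = h ^ p

/-- the differential `ω` is regular at `P`: `ω = f dt` with `t` a uniformiser at `P` and `f` regular at `P` -/
def RegAt {k F : Type} [Field k] [Field F] [Algebra k F] (P : Place k F)
    (ω : KaehlerDifferential k F) : Prop :=
  ∃ t f : F, P.Unif t ∧ P.Ge 0 f ∧ ω = f • KaehlerDifferential.D k F t

/-- the `a`-number: the dimension of the space of the exact regular differentials, the kernel of the Cartier operator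
on `H⁰(C, Ω)`; it is `dim Hom(α_p, Jac(C))`. (`Submodule.span` of a set which is in fact a subspace.) -/
def aNumber (k F : Type) [Field k] [Field F] [Algebra k F] : ℕ :=
  Module.finrank k (Submodule.span k {ω : KaehlerDifferential k F |
    (∀ P : Place k F, RegAt P ω) ∧ ∃ h : F, ω = KaehlerDifferential.D k F h})

/-- `E / k((t))` has good reduction with reduction `F₀ / k` (Deuring): there is a valuation ring `O` of `E` with
`O ∩ k((t)) = k[[t]]`, with maximal ideal `t O` and with residue field `F₀`; `π` is the residue map. (The genus of `F₀` is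
required to be that of `E` in the final statement.) -/
def GoodReduction (k F₀ E : Type) [Field k] [Field F₀] [Algebra k F₀] [Field E]
    [Algebra (LaurentSeries k) E] : Prop :=
  ∃ (O : ValuationSubring E) (π : O →+* F₀), Function.Surjective π ∧
    (∀ x : O, π x = 0 ↔ ∃ y : O, (x : E) =
      algebraMap (LaurentSeries k) E (algebraMap (PowerSeries k) (LaurentSeries k) PowerSeries.X) * y) ∧
    (∀ c : LaurentSeries k, algebraMap (LaurentSeries k) E c ∈ O ↔
      c ∈ Set.range (algebraMap (PowerSeries k) (LaurentSeries k))) ∧
    ∀ (c : PowerSeries k) (x : O),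
      (x : E) = algebraMap (LaurentSeries k) E (algebraMap (PowerSeries k) (LaurentSeries k) c) →
      π x = algebraMap k F₀ (PowerSeries.constantCoeff c)

/-- `E' / L` is the constant field extension of `E / K` by `L / K`: generated by `E` and `L`, and linearly disjoint -/
def IsConstExt (K L E E' : Type) [Field K] [Field L] [Field E] [Field E'] [Algebra K L]
    [Algebra K E] [Algebra L E'] (j : E →+* E') : Prop :=
  (∀ c : K, j (algebraMap K E c) = algebraMap L E' (algebraMap K L c)) ∧
  (∀ x : E', ∃ (n : ℕ) (a b : Fin n → L) (u v : Fin n → E),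
    ∑ i, algebraMap L E' (b i) * j (v i) ≠ 0 ∧
    x * (∑ i, algebraMap L E' (b i) * j (v i)) = ∑ i, algebraMap L E' (a i) * j (u i)) ∧
  ∀ (n : ℕ) (v : Fin n → E), LinearIndependent K v → LinearIndependent L (fun i => j (v i))

/-- Every curve `C₀` of genus `g ≥ 2` and `p`-rank 0 over an algebraically closed field `k` of characteristic `p` is the
reduction of a curve over `k((t))` with good reduction, whose geometric generic fibre (over an algebraic closure `L` of `k((t))`) has
the same genus, `p`-rank 0 and `a`-number 1. -/
def Answer : Prop :=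
  ∀ (p : ℕ) [Fact p.Prime] (k : Type) [Field k] [IsAlgClosed k] [CharP k p]
    (F₀ : Type) [Field F₀] [Algebra k F₀] (g : ℕ), 2 ≤ g → IsFF k F₀ → IsGenus k F₀ g →
    PRankZero p k F₀ →
    ∃ (E : Type) (_ : Field E) (_ : Algebra (LaurentSeries k) E) (E' : Type) (_ : Field E')
      (_ : Algebra (AlgebraicClosure (LaurentSeries k)) E') (j : E →+* E'),
      IsFF (LaurentSeries k) E ∧ GoodReduction k F₀ E ∧
      IsConstExt (LaurentSeries k) (AlgebraicClosure (LaurentSeries k)) E E' j ∧
      IsFF (AlgebraicClosure (LaurentSeries k)) E' ∧
      IsGenus (AlgebraicClosure (LaurentSeries k)) E' g ∧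
      PRankZero p (AlgebraicClosure (LaurentSeries k)) E' ∧
      aNumber (AlgebraicClosure (LaurentSeries k)) E' = 1

end

end AN
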