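import Pool.Agent.helper48.AN.SpecD
import Pool.Agent.helper48.AN.Problem
import Pool.Agent.helper87.AU.AsmQ

/-!
# Project an (MP_263b92_ag), part F: function fields over an algebraically closed field of characteristic `p`

The library of project au is available WITHOUT hypotheses: `aQV1` (residue field `k`), `aQV0`, `aQV4`, `aQV5`, `aQZ3` (number of poles `= [F : k(z)]`),
`aQR1` - `aQR5` (Riemann-Roch spaces, genus, strong approximation, pole numbers), `aQA1`, `QA2` (Apery bases `OneP`), `aQN0` (matrix of a multiplication),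
`QK1`, `aQK2`, `aQK3`, `aQK5` (derivations), `aQH1` (degree of `dx`), in the namespace `Pool.Agent.helper53.AU` (statements in `helper87/AU/SpecQ1.lean`).

A differential `ω` is encoded, with a fixed derivation `D ≠ 0` of `F / k`, by `w ∈ F` such that `df` is encoded by `D f`; it is regular at `P` iff
`P.Ge (P.ord (D P.unif)) w` (QK5). Rules as in part A (`import Pool.Agent.helper48.AN.SpecF`).
-/

namespace AN

open scoped Classical
open Pool.Agent.helper53.AU

noncomputable section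

/-- `ι` is a Laurent expansion at `P₀` -/
structure Lau {k F : Type} [Field k] [Field F] [Algebra k F] (P₀ : Place k F) (ι : F →+* LS k) : Prop where
  const : ∀ c : k, ι (algebraMap k F c) = LS.C c
  mem : ∀ f : F, f ≠ 0 → ι f ∈ GE k (P₀.ord f)
  ne : ∀ f : F, f ≠ 0 → cf (ι f) (P₀.ord f) ≠ 0

/-- functions regular outside `P₀` with pole order at most `m` at `P₀` -/
def regF {k F : Type} [Field k] [Field F] [Algebra k F] (P₀ : Place k F) (m : ℤ) : Submodule k F where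
  carrier := {f | (∀ P : Place k F, P ≠ P₀ → P.Ge 0 f) ∧ P₀.Ge (-m) f}
  zero_mem' := ⟨fun P _ => P.ge_zero _, P₀.ge_zero _⟩
  add_mem' := fun ha hb => ⟨fun P hP => (ha.1 P hP).add (hb.1 P hP), ha.2.add hb.2⟩
  smul_mem' := fun c _ hf => ⟨fun P hP => (hf.1 P hP).smul c, hf.2.smul c⟩

/-- differentials regular outside `P₀` with pole order at most `m` at `P₀` -/
def omF {k F : Type} [Field k] [Field F] [Algebra k F] (P₀ : Place k F) (D : Derivation k F F) (m : ℤ) :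
    Submodule k F where
  carrier := {w | (∀ P : Place k F, P ≠ P₀ → P.Ge (P.ord (D P.unif)) w) ∧ P₀.Ge (P₀.ord (D P₀.unif) - m) w}
  zero_mem' := ⟨fun P _ => P.ge_zero _, P₀.ge_zero _⟩
  add_mem' := fun ha hb => ⟨fun P hP => (ha.1 P hP).add (hb.1 P hP), ha.2.add hb.2⟩
  smul_mem' := fun c _ hf => ⟨fun P hP => (hf.1 P hP).smul c, hf.2.smul c⟩

/-- vector fields regular outside `P₀` with pole order at most `m` at `P₀` (`v` encodes `v D`) -/
def vfF {k F : Type} [Field k] [Field F] [Algebra k F] (P₀ : Place k F) (D : Derivation k F F) (m : ℤ) :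
    Submodule k F where
  carrier := {v | (∀ P : Place k F, P ≠ P₀ → P.Ge (-P.ord (D P.unif)) v) ∧ P₀.Ge (-P₀.ord (D P₀.unif) - m) v}
  zero_mem' := ⟨fun P _ => P.ge_zero _, P₀.ge_zero _⟩
  add_mem' := fun ha hb => ⟨fun P hP => (ha.1 P hP).add (hb.1 P hP), ha.2.add hb.2⟩
  smul_mem' := fun c _ hf => ⟨fun P hP => (hf.1 P hP).smul c, hf.2.smul c⟩

/-- FA: Laurent expansions exist. Proof: `t` a uniformiser; by QV1 every `f` with `P₀.Ge 0 f` has for every `n` unique `c_0, ..., c_{n-1}` with `P₀.Ge n (f - ∑ c_i t^i)`; this gives a ring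
homomorphism to power series, extended to `F` by `ι (t^(-m) f) = s^(-m) ι f`. -/
def FA_stmt : Prop := ∀ (k F : Type) [Field k] [IsAlgClosed k] [Field F] [Algebra k F], IsFF k F →
  ∀ P₀ : Place k F, ∃ ι : F →+* LS k, Lau P₀ ι

/-- FB: `d/ds ∘ ι = u ι ∘ D`, the order of `u` is `- P₀.ord (D P₀.unif)`.
Proof: `x` with `D x ≠ 0` is separating (aQK3); `dd ∘ ι` and `u ι ∘ D`, `u = dd (ι x) / ι (D x)`, are derivations `F → LS k` over `k` which agree at `x`, so on `k(x)` and on the separable extension `F`.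
`dd (ι t)` has order 0 for a uniformiser `t`. -/
def FB_stmt : Prop := ∀ (k F : Type) [Field k] [IsAlgClosed k] [Field F] [Algebra k F], IsFF k F →
  ∀ (P₀ : Place k F) (ι : F →+* LS k), Lau P₀ ι → ∀ D : Derivation k F F, D ≠ 0 →
    ∃ u : LS k, u ∈ GE k (-P₀.ord (D P₀.unif)) ∧ cf u (-P₀.ord (D P₀.unif)) ≠ 0 ∧
      ∀ f : F, dd (ι f) = u * ι (D f)

/-- FC0: change of the coordinate `s ↦ σ`.
Proof: substitution `PowerSeries.subst` extended to the fraction field. Chain rule. Residue: `res (S f * dd σ) = res f`: both sides are additive and for `f ∈ GE 0` both vanish, so it is enough to take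
`f = s^n`, `n < 0`: for `n = -1`: `dd σ / σ = 1/s + regular`; for `n ≤ -2`: `σ^n dd σ` has residue 0: lift the coefficients of `σ` to a ring without torsion (`MvPolynomial k ℤ` localised at
the leading coefficient, or use that `res (σ^n dd σ)` is a universal polynomial in the coefficients of `σ / s` and the inverse of the leading one), where `(n+1) σ^n dd σ = dd (σ^(n+1))`. -/
def FC0_stmt : Prop := ∀ (k : Type) [Field k] (σ : LS k), σ ∈ GE k 1 → cf σ 1 ≠ 0 →
  ∃ S : LS k ≃+* LS k, (∀ c, S (LS.C c) = LS.C c) ∧ S (mono 1 1) = σ ∧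
    (∀ (m : ℤ) (f : LS k), f ∈ GE k m ↔ S f ∈ GE k m) ∧
    (∀ f : LS k, dd (S f) = S (dd f) * dd σ) ∧ ∀ f : LS k, res (S f * dd σ) = res f

/-- FCR: `n`-th roots, `n` prime to the characteristic: `y` of order `-n` is `σ^(-n)`. (Leading coefficient: `k` algebraically closed; a power series `1 + ...` has an `n`-th root, coefficient by coefficient or Hensel.) -/
def FCR_stmt : Prop := ∀ (k : Type) [Field k] [IsAlgClosed k] (n : ℕ), 0 < n → (n : k) ≠ 0 →
  ∀ y : LS k, y ∈ GE k (-(n : ℤ)) → cf y (-(n : ℤ)) ≠ 0 → ∃ σ ∈ GE k 1, cf σ 1 ≠ 0 ∧ σ ^ n * y = 1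

/-- FC1: the residue theorem when `ι x = s^(-n)`, `n` prime to the characteristic: `cf (ι f) n = 0` for `f ∈ Reg P₀`.
Proof: `u_0, ..., u_{n-1}` an Apery basis of `Reg P₀` over `k[x]` (aQA1), `A` the matrix of the multiplication by `f` (aQN0): `f u_j = ∑_i A_ij(x) u_i`. For an `n`-th root of unity `ζ` let `c_ζ` be the automorphism
`s ↦ ζ s` of `LS k`; it fixes `ι x`. `U = (c_{ζ^i}(ι u_j))_{ij}`; `diag(c_{ζ^i}(ι f)) U = U A(ι x)` and `det U ≠ 0` (leading terms: `∏ c_j s^(-μ_j)` times the Vandermonde determinant of the `ζ^(-μ_j)`,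
distinct because the `μ_j` are distinct modulo `n`). So `∑_i c_{ζ^i}(ι f) = trace A (ι x)` is a polynomial in `s^(-n)`; its coefficient at `s^n` is `0 = n cf (ι f) n`. -/
def FC1_stmt : Prop := ∀ (k F : Type) [Field k] [IsAlgClosed k] [Field F] [Algebra k F], IsFF k F →
  ∀ (P₀ : Place k F) (ι : F →+* LS k), Lau P₀ ι → ∀ (x : F) (n : ℕ), 0 < n → (n : k) ≠ 0 →
    x ∈ Reg P₀ → ι x = mono (-(n : ℤ)) 1 → ∀ f ∈ Reg P₀, cf (ι f) n = 0

/-- FC: THE RESIDUE THEOREM for `f dh`, `f`, `h` regular outside `P₀`.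
Proof: choose `x ∈ Reg P₀` of pole order `n` prime to `p` and larger than that of `h` (aQR5). For `y = x` and `y = x + h`: `ι y = σ^(-n)` (FCR), `S` as in FC0, `ι' = S⁻¹ ∘ ι` is a Laurent expansion with `ι' y = s^(-n)`, so
`res (ι f * dd (ι y)) = res (ι' f * dd (ι' y)) = - n cf (ι' f) n = 0` by FC1. Subtract. -/
def FC_stmt : Prop := ∀ (p : ℕ) [Fact p.Prime] (k F : Type) [Field k] [IsAlgClosed k] [CharP k p] [Field F]
  [Algebra k F], IsFF k F → ∀ (P₀ : Place k F) (ι : F →+* LS k), Lau P₀ ι →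
    ∀ f ∈ Reg P₀, ∀ h ∈ Reg P₀, res (ι f * dd (ι h)) = 0

/-- FD: the differentials regular outside `P₀` are the sums of `f dh`, `f, h ∈ Reg P₀`.
Proof: `⊇`: QK5. `⊆`: let `I = {a ∈ Reg P₀ : a w ∈ span}`, an ideal. For `P ≠ P₀` choose `h ∈ Reg P₀` with `h - c` a uniformiser at `P` (aQR4), so `P.ord (D h) = P.ord (D P.unif)` and `w / D h` is regular at `P`; `a ∈ Reg P₀` with
`P.ord a = 0` and `a (w / D h) ∈ Reg P₀` (aQR4); then `a ∈ I`. Take `0 ≠ a₀ ∈ I`, `Q_1..Q_r ≠ P₀` its zeros, `a_i ∈ I` with `Q_i.ord a_i = 0`, `b_i ∈ Reg P₀` close to `a_i⁻¹` at `Q_i` and to 0 at the other `Q_j` (aQR4); `a = ∑ b_i a_i`, then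
`(1 - a) / a₀ ∈ Reg P₀`, so `1 ∈ I`. -/
def FD_stmt : Prop := ∀ (k F : Type) [Field k] [IsAlgClosed k] [Field F] [Algebra k F], IsFF k F →
  ∀ (P₀ : Place k F) (D : Derivation k F F), D ≠ 0 → ∀ w : F,
    (∀ P : Place k F, P ≠ P₀ → P.Ge (P.ord (D P.unif)) w) ↔
      w ∈ Submodule.span k {x : F | ∃ f ∈ Reg P₀, ∃ h ∈ Reg P₀, x = f * D h}

/-- FE: dimensions (aQR3 for the divisors `m P₀`, `K + m P₀`, `-K + m P₀`; `K = div D`: `K P = - P.ord (D P.unif)` has finite support and degree `2g - 2` by aQH1, aQV4, aQV5; for `g ≥ 2` a nonzero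
`v ∈ L(-K)` would have a divisor of degree `≥ 2g - 2 > 0`). -/
def FE_stmt : Prop := ∀ (k F : Type) [Field k] [IsAlgClosed k] [Field F] [Algebra k F], IsFF k F →
  ∀ g : ℕ, IsGenus k F g → ∀ (P₀ : Place k F) (D : Derivation k F F), D ≠ 0 →
    (∃ C : ℕ, ∀ m : ℕ, C ≤ m → Module.finrank k (regF P₀ (m : ℤ)) + g = m + 1 ∧
      Module.finrank k (omF P₀ D (m : ℤ)) + 1 = m + g ∧
      Module.finrank k (vfF P₀ D (m : ℤ)) + 3 * g = m + 3) ∧
    (2 ≤ g → vfF P₀ D 0 = ⊥)

/-- FE0: echelon bases. `V` a space of Laurent series without elements of order `> -e`, `e ≤ 1`... with `dim (V ∩ GE (-m)) = m + 1 - e - G` for large `m`. Then there are `G` gaps among the integers `≥ e` and an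
echelon basis. Proof: non-gaps = the `r ≥ e` such that some `v ∈ V` has order `-r`; counting dimensions of `V ∩ GE (-m) / V ∩ GE (-m+1)` (0 or 1) gives `G` gaps. Choose `v_r ∈ V` with leading term `s^(-r)` and
make the coefficients at `-r'`, `r' < r` non-gaps, zero (by induction on `r`). -/
def FE0_stmt : Prop := ∀ (k : Type) [Field k] (V : Submodule k (LS k)) (e G : ℕ),
  V ⊓ GE k (1 - (e : ℤ)) = ⊥ →
  (∃ C : ℕ, ∀ m : ℕ, C ≤ m → Module.finrank k (V ⊓ GE k (-(m : ℤ)) : Submodule k (LS k)) + G + e = m + 1) →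
  ∃ (γ : Fin G → ℕ) (a : ℕ → LS k), Function.Injective γ ∧ (∀ i, e ≤ γ i) ∧
    (∀ r, e ≤ r → ¬ Gp γ r → a r ∈ V) ∧
    (∀ r r', e ≤ r → e ≤ r' → ¬ Gp γ r → ¬ Gp γ r' → cf (a r) (-(r' : ℤ)) = if r = r' then 1 else 0) ∧
    (∀ r, Gp γ r → ∀ v ∈ V, v ∈ GE k (-(r : ℤ)) → cf v (-(r : ℤ)) = 0) ∧
    V = Submodule.span k {x | ∃ r, e ≤ r ∧ ¬ Gp γ r ∧ x = a r}

/-- FS: ONE-POINT DATA of a function field.
Proof: `V = ι (Reg P₀)`, FE and FE0 (`e = 0`) give `γ`, `a`; `a 0 = 1` (uniqueness of the echelon basis; `1 ∈ V`, so 0 is not a gap). `IsK.mul`: `V` is a ring. `IsK.res0`: FC. `IsK.gen`: by FD and FB `OmA γ a = {u ι(w) : w` regular outside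
`P₀}`, so `OmA ⊓ GE (-m)` has dimension `m + g - 1` for large `m` (FE); it is contained in the annihilator of `A` (FC), whose part in `GE (-m)` is spanned by the `m - 1 + g` elements `om n`, `-m ≤ n ≤ -2` or `n = γ i - 1` (DJ0); so
these are in `OmA`. -/
def FS_stmt : Prop := ∀ (p : ℕ) [Fact p.Prime] (k F : Type) [Field k] [IsAlgClosed k] [CharP k p] [Field F]
  [Algebra k F], IsFF k F → ∀ g : ℕ, IsGenus k F g → ∀ (P₀ : Place k F) (ι : F →+* LS k), Lau P₀ ι →
    ∃ (γ : Fin g → ℕ) (a : ℕ → LS k), IsK γ a ∧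
      ∀ x : LS k, x ∈ AA γ a ↔ ∃ f ∈ Reg P₀, x = ι f

/-- FT: the tangent sheaf. Proof: `V = {ι(v) / u : v` regular vector field outside `P₀}`; by FE (`g ≥ 2`: `V ⊓ PS = 0`) and FE0 with `e = 1`, `G = 3g - 3`. `τ n * dd (ι f) = ι (v D f)` and `v D f ∈ Reg P₀` (QK5). -/
def FT_stmt : Prop := ∀ (p : ℕ) [Fact p.Prime] (k F : Type) [Field k] [IsAlgClosed k] [CharP k p] [Field F]
  [Algebra k F], IsFF k F → ∀ g : ℕ, 2 ≤ g → IsGenus k F g → ∀ (P₀ : Place k F) (ι : F →+* LS k),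
    Lau P₀ ι → ∀ (γ : Fin g → ℕ) (a : ℕ → LS k), IsK γ a →
      (∀ x : LS k, x ∈ AA γ a ↔ ∃ f ∈ Reg P₀, x = ι f) →
      ∃ (ν : Fin (3 * g - 3) → ℕ) (τ : ℕ → LS k), IsT γ a ν τ

/-! ## p-rank -/

/-- FG1: dual form of Lang's theorem. Proof: the map `z ↦ (H^T z)^(1/p)` (`k` perfect) is `p⁻¹`-linear and not nilpotent; its stable image `U ≠ 0` is a subspace on which it is bijective, its inverse on `U` is `p`-linear and bijective, so it has a
nonzero fixed vector (same argument as PE, or PE in a basis of `U`). -/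
def FG1_stmt : Prop := ∀ (p : ℕ) [Fact p.Prime] (K : Type) [Field K] [IsAlgClosed K] [CharP K p] (g : ℕ)
  (H : Matrix (Fin g) (Fin g) K), MN p H g ≠ 0 → ∃ z : Fin g → K, z ≠ 0 ∧ frV p z = H.transpose.mulVec z

/-- FG2: the logarithmic differential of a fixed vector: `η = ∑ z_i • η_i` (KD). The two sides of the identity are additive in `y` and vanish on `A` and on `PS` (`y^p ∈ A`, `PS`); for `y = c e_j`: `c^p ∑_i H_ij z_i = c^p z_j^p` (KE). Conversely
every `η ∈ Ω ∩ PS` with this property comes from `z_i = res (e_i η)`. -/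
def FG2_stmt : Prop := ∀ (p : ℕ) [Fact p.Prime] (K : Type) [Field K] [CharP K p] (g : ℕ) (γ : Fin g → ℕ)
  (a : ℕ → LS K), IsK γ a →
    (∀ z : Fin g → K, z ≠ 0 → frV p z = (HW p γ a).transpose.mulVec z → ∃ η ∈ OmA γ a, η ∈ PS K ∧ η ≠ 0 ∧
      ∀ y : LS K, res (y ^ p * η) = (res (y * η)) ^ p) ∧
    ∀ η ∈ OmA γ a, η ∈ PS K → (∀ y : LS K, res (y ^ p * η) = (res (y * η)) ^ p) →
      MN p (HW p γ a) g = 0 → η = 0

/-- the connection `y ↦ dy/ds - η y` -/
def conn {K : Type} [Field K] (η : LS K) : LS K →+ LS K where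
  toFun y := dd y - η * y
  map_zero' := by simp
  map_add' a b := by rw [map_add]; ring

/-- FG3: Jacobson's formula for the `p`-curvature: `(d/ds - η)^p = -(η^(p-1 derivative) + η^p)`.
Proof: `∇_η^p (f y) = f ∇_η^p y` (Leibniz, `dd^p = 0`), so `∇_η^p` is the multiplication by `c(η) = ∇_η^p 1`. `c` is additive in `η`: `∇_{η₁+η₂}(y₁ y₂) = (∇_{η₁} y₁) y₂ + y₁ ∇_{η₂} y₂`, take the `p`-th power. For `η = β s^n`, `n ≠ -1`:
`c(β s^n) = ∑_{j=1}^p κ_j β^j s^(j(n+1)-p)` with `κ_j` independent of `β`; by additivity in `β ∈ K` infinite only `j = 1` and `j = p` remain, `κ_1 s^(n+1-p) = - dd^(p-1) s^n`, `κ_p = (-1)^p = -1`. For `n = -1`: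
`(d/ds - β/s) s^m = (m - β) s^(m-1)`, `c = ∏_{i<p} (-i-β) s^(-p) = (β - β^p) s^(-p)`. General `η`: truncate (a coefficient of `c(η)` depends on finitely many coefficients of `η`: `η ∈ GE m` implies `c(η) ∈ GE (min (m + 1 - p) (p m))`, `m ≥ 0`). -/
def FG3_stmt : Prop := ∀ (p : ℕ) [Fact p.Prime] (K : Type) [Field K] [Infinite K] [CharP K p] (η y : LS K),
  ((conn η)^[p]) y = -(((fun z : LS K => dd z)^[p - 1]) η + η ^ p) * y

/-- FG4: if `res (y^p η) = (res (y η))^p` for all `y` then the connection `d/ds - η` is nilpotent, and has a nonzero kernel.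
Proof: FG3 and the coefficients: with `y = s^(-m-1)`: `cf η (p m + p - 1) = (cf η m)^p`; `cf (dd^(p-1) η) n = (n+1)...(n+p-1) cf η (n+p-1)`, the product is `-1` in `K` if `p ∣ n` and `0` otherwise. -/
def FG4_stmt : Prop := ∀ (p : ℕ) [Fact p.Prime] (K : Type) [Field K] [Infinite K] [CharP K p] (η : LS K),
  (∀ y : LS K, res (y ^ p * η) = (res (y * η)) ^ p) → ∃ y : LS K, y ≠ 0 ∧ dd y = η * y

/-- FH0: the constants of a derivation. Proof: `F^p ⊆ ker D ≠ F` and `[F : F^p] = p` (`k` perfect, `F` finite separable over `k(x)`); or: `f ∉ F^p` implies `f` separating (aQK3)... -/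
def FH0_stmt : Prop := ∀ (p : ℕ) [Fact p.Prime] (k F : Type) [Field k] [IsAlgClosed k] [CharP k p] [Field F]
  [Algebra k F], IsFF k F → ∀ D : Derivation k F F, D ≠ 0 → ∀ f : F, D f = 0 → ∃ h : F, f = h ^ p

/-- FG: `p`-rank 0 implies that the Hasse-Witt matrix is `p`-nilpotent.
Proof: otherwise FG1, FG2 give `η ∈ Ω ∩ PS`, `η ≠ 0`; `η = u ι(w)`, `w ∈ F` (FD, FB). Choose `x` with `D x ≠ 0` and replace `D` by `D / D x`, so `D x = 1` and `D^p = 0` on `F` (it is a derivation killing the separating `x`). FG4: `y₀ ∈ LS k`, `y₀ ≠ 0`,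
`dd y₀ = η y₀`. Let `Δ = u⁻¹ dd` on `LS k` (so `Δ ∘ ι = ι ∘ D`); `Δ^p` is a derivation of `LS k`, it vanishes on `p`-th powers of `LS k` and is therefore `Δ^p(s) dd`; it kills `ι x`, so `Δ^p = 0`. `Θ = Δ - ι w`: `Θ^p` is `LS k`-linear and kills `y₀`, so
`Θ^p = 0`; so `(D - w)^p = 0` on `F`, and there is `f ≠ 0` in `F` with `D f = w f`. At every place `w = D f / f` is regular as a differential, so `p ∣ P.ord f` (QK5; at `P₀` since `η ∈ PS`). `PRankZero`: `f = h^p`, `D f = 0`, `w = 0`, `η = 0`. -/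
def FG_stmt : Prop := ∀ (p : ℕ) [Fact p.Prime] (k F : Type) [Field k] [IsAlgClosed k] [CharP k p] [Field F]
  [Algebra k F], IsFF k F → ∀ (P₀ : Place k F) (ι : F →+* LS k), Lau P₀ ι →
    ∀ (g : ℕ) (γ : Fin g → ℕ) (a : ℕ → LS k), IsK γ a →
      (∀ x : LS k, x ∈ AA γ a ↔ ∃ f ∈ Reg P₀, x = ι f) →
      PRankZero p k F → PNil p (HW p γ a)

/-- FH1: a `p`-nilpotent Hasse-Witt matrix gives `p`-rank 0.
Proof: let all orders of `f` be divisible by `p`, `φ = ι f`, `η = dd φ / φ = u ι(D f / f)`; `D f / f` is regular everywhere (write `f = t^(p m) v`), so `η ∈ Ω ∩ PS` (FD, FB). CB for `b = φ`, divided by `φ^p`: `η = η^p s^(p-1) + dd y'`, so `res (y^p η) = (res (y η))^p` (CC). FG2: `η = 0`, so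
`D f = 0`; FH0. -/
def FH1_stmt : Prop := ∀ (p : ℕ) [Fact p.Prime] (k F : Type) [Field k] [IsAlgClosed k] [CharP k p] [Field F]
  [Algebra k F], IsFF k F → ∀ (P₀ : Place k F) (ι : F →+* LS k), Lau P₀ ι →
    ∀ (g : ℕ) (γ : Fin g → ℕ) (a : ℕ → LS k), IsK γ a →
      (∀ x : LS k, x ∈ AA γ a ↔ ∃ f ∈ Reg P₀, x = ι f) →
      MN p (HW p γ a) g = 0 → PRankZero p k F

/-- FK: Kähler differentials: `Ω[F/k]` is one-dimensional, identified with `F` by a derivation `D ≠ 0`; regularity. (aQK2: every derivation is a multiple of `D`, so the dual of `Ω` is one-dimensional, `Ω` is finite-dimensional; aQK5.) -/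
def FK_stmt : Prop := ∀ (k F : Type) [Field k] [IsAlgClosed k] [Field F] [Algebra k F], IsFF k F →
  ∀ D : Derivation k F F, D ≠ 0 → ∃ e : KaehlerDifferential k F ≃ₗ[F] F,
    (∀ f : F, e (KaehlerDifferential.D k F f) = D f) ∧
    ∀ (P : Place k F) (ω : KaehlerDifferential k F), RegAt P ω ↔ P.Ge (P.ord (D P.unif)) (e ω)

/-- FH2: the `a`-number is the dimension of the kernel of the Hasse-Witt matrix: `a = g - rank`.
Proof: for `v` with `H v = 0`: `∑ v_j e_j^p = α_v + o_v` (KE), `α_v = ι f_v`, `f_v ∈ Reg P₀`; `v ↦ d f_v` is linear, injective (CE), and `d f_v` is regular (at `P₀`: `dd (ι f_v) = - dd o_v ∈ PS`). Surjective onto the exact regular differentials: `ω = dh` regular; at each `P` there is `r_P` with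
`h - r_P^p` regular (Laurent expansion: `d` of the polar part vanishes, `k` perfect), strong approximation (aQR4) gives `r ∈ F` with `f = h - r^p ∈ Reg P₀`, `ω = df`; `dd (ι f) ∈ PS`, so `ι f = y^p + b`, `b ∈ PS`, `y = ∑ x_j e_j + α + o` (KA), `α = ι f₁`; then `∑ x_j^p e_j^p ∈ A + PS`, so
`H x^(p) = 0` (KE, KA) and `ω = d (f - f₁^p) = d f_v` for `v = x^(p)`. -/
def FH2_stmt : Prop := ∀ (p : ℕ) [Fact p.Prime] (k F : Type) [Field k] [IsAlgClosed k] [CharP k p] [Field F]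
  [Algebra k F], IsFF k F → ∀ (P₀ : Place k F) (ι : F →+* LS k), Lau P₀ ι →
    ∀ (g : ℕ) (γ : Fin g → ℕ) (a : ℕ → LS k), IsK γ a →
      (∀ x : LS k, x ∈ AA γ a ↔ ∃ f ∈ Reg P₀, x = ι f) →
      aNumber k F + (HW p γ a).rank = g

end

end AN
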