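import Pool.Agent.helper48.AN.SpecZ

namespace AN

open scoped Classical
open Pool.Agent.helper53.AU

theorem ZZ_MN {R S : Type} [CommRing R] [CommRing S] (p : ℕ) (φ : R →+* S) {g : ℕ}
    (H : Matrix (Fin g) (Fin g) R) (n : ℕ) : MN p (H.map φ) n = (MN p H n).map φ := by
  induction n with
  | zero =>
    show (1 : Matrix (Fin g) (Fin g) S) = (1 : Matrix (Fin g) (Fin g) R).map φ
    rw [Matrix.map_one φ (map_zero φ) (map_one φ)]
  | succ n ih =>
    show H.map φ * frM p (MN p (H.map φ) n) = (H * frM p (MN p H n)).map φ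
    rw [ih, Matrix.map_mul]
    congr 1
    ext i j
    simp [frM]

theorem ZZ (hZD : ZD_stmt) (hFA : FA_stmt) (hFS : FS_stmt) (hFT : FT_stmt) (hFG : FG_stmt)
    (hEA : EA_stmt) (hBC : BC_stmt) (hZA : ZA_stmt) (hZF : ZF_stmt) (hZG : ZG_stmt)
    (hZB : ZB_stmt) (hZB0 : ZB0_stmt) (hZB1 : ZB1_stmt) (hFH1 : FH1_stmt) (hFH2 : FH2_stmt)
    (hZR : ZR_stmt) : ZZ_stmt := by
  intro p _ k _ _ _ F₀ _ _ g hg hFF hgen hpr
  obtain ⟨P₀⟩ := hZD k F₀ hFF
  obtain ⟨ι, hι⟩ := hFA k F₀ hFF P₀
  obtain ⟨γ, a, hK, hreg⟩ := hFS p k F₀ hFF g hgen P₀ ι hι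
  obtain ⟨ν, τ, hT⟩ := hFT p k F₀ hFF g hg hgen P₀ ι hι γ a hK hreg
  have hnil := hFG p k F₀ hFF P₀ ι hι g γ a hK hreg hpr
  obtain ⟨A, hA, hred, hMN, hrk⟩ := hEA p k (3 * g - 3) g γ a ν τ (by omega) hK hT hnil
  have hgp : 0 < g := by omega
  -- the generic fibre
  have hB1 := hBC (PowerSeries k) (LaurentSeries k) (algebraMap (PowerSeries k) (LaurentSeries k)) g 0
    γ A (fun _ => 0) (fun _ => 0) hA
  have hKK := hB1.1
  have hHW1 := hB1.2.2.2.1 p
  have hB2 := hBC (LaurentSeries k) (AlgebraicClosure (LaurentSeries k))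
    (algebraMap (LaurentSeries k) (AlgebraicClosure (LaurentSeries k))) g 0 γ _ (fun _ => 0) (fun _ => 0) hKK
  have hKL := hB2.1
  have hHW2 := hB2.2.2.2.1 p
  have hinj1 : Function.Injective (algebraMap (PowerSeries k) (LaurentSeries k)) :=
    IsFractionRing.injective (PowerSeries k) (LaurentSeries k)
  have hcK : CharP (LaurentSeries k) p :=
    charP_of_injective_ringHom (f := (algebraMap (PowerSeries k) (LaurentSeries k)).comp
      (PowerSeries.C (R := k))) (hinj1.comp (PowerSeries.C_injective)) p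
  have hcL : CharP (AlgebraicClosure (LaurentSeries k)) p :=
    charP_of_injective_ringHom
      (f := algebraMap (LaurentSeries k) (AlgebraicClosure (LaurentSeries k)))
      (algebraMap (LaurentSeries k) (AlgebraicClosure (LaurentSeries k))).injective p
  obtain ⟨j, hj⟩ := hZG (LaurentSeries k) (AlgebraicClosure (LaurentSeries k)) g γ _ hKK
  obtain ⟨P₁, hP₁⟩ := hZB0 (AlgebraicClosure (LaurentSeries k)) g γ _ hKL
  have hreg' := hZB1 p (AlgebraicClosure (LaurentSeries k)) g γ _ hKL P₁ hP₁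
  have hFF' := hZA (AlgebraicClosure (LaurentSeries k)) g γ _ hKL
  have hmnL : MN p (HW p γ (fun r => mp (algebraMap (LaurentSeries k)
      (AlgebraicClosure (LaurentSeries k))) (mp (algebraMap (PowerSeries k) (LaurentSeries k)) (A r)))) g = 0 := by
    rw [hHW2, hHW1, ZZ_MN, ZZ_MN, hMN, Matrix.map_zero _ (map_zero _), Matrix.map_zero _ (map_zero _)]
  refine ⟨EF γ (fun r => mp (algebraMap (PowerSeries k) (LaurentSeries k)) (A r)), inferInstance,
    inferInstance, EF γ (fun r => mp (algebraMap (LaurentSeries k)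
      (AlgebraicClosure (LaurentSeries k))) (mp (algebraMap (PowerSeries k) (LaurentSeries k)) (A r))),
    inferInstance, inferInstance, j, hZA _ g γ _ hKK,
    hZF k F₀ hFF P₀ ι hι g γ a hK hreg A hA hred, hj, hFF', hZB p _ g γ _ hKL, ?_, ?_⟩
  · exact hFH1 p _ _ hFF' P₁ _ hP₁ g γ _ hKL hreg' hmnL
  · have h1 := hFH2 p _ _ hFF' P₁ _ hP₁ g γ _ hKL hreg'
    have h2 := hZR p _ g _ hgp hmnL
    have h3 := hrk (AlgebraicClosure (LaurentSeries k))
      ((algebraMap (LaurentSeries k) (AlgebraicClosure (LaurentSeries k))).comp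
        (algebraMap (PowerSeries k) (LaurentSeries k)))
      ((algebraMap (LaurentSeries k) (AlgebraicClosure (LaurentSeries k))).injective.comp hinj1)
    have h4 : (HW p γ A).map ((algebraMap (LaurentSeries k) (AlgebraicClosure (LaurentSeries k))).comp
        (algebraMap (PowerSeries k) (LaurentSeries k))) = HW p γ (fun r => mp (algebraMap (LaurentSeries k)
      (AlgebraicClosure (LaurentSeries k))) (mp (algebraMap (PowerSeries k) (LaurentSeries k)) (A r))) := by
      rw [hHW2, hHW1]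
      rfl
    rw [h4] at h3
    omega

end AN
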