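import Pool.Agent.helper10.AN.FH0
import Pool.Agent.helper10.AN.ZG
import Pool.Agent.helper16.AN.DI
import Pool.Agent.helper16.AN.FC
import Pool.Agent.helper16.AN.FG2
import Pool.Agent.helper16.AN.FH1
import Pool.Agent.helper19.AN.DH
import Pool.Agent.helper19.AN.DJ
import Pool.Agent.helper19.AN.FS
import Pool.Agent.helper19.AN.PE
import Pool.Agent.helper19.AN.PJ
import Pool.Agent.helper19.AN.TE
import Pool.Agent.helper19.AN.TF
import Pool.Agent.helper20.AN.DB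
import Pool.Agent.helper20.AN.DK
import Pool.Agent.helper21.AN.PG
import Pool.Agent.helper21.AN.PH
import Pool.Agent.helper21.AN.PI
import Pool.Agent.helper21.AN.PK
import Pool.Agent.helper21.AN.PL
import Pool.Agent.helper21.AN.PO
import Pool.Agent.helper27.AN.EA2
import Pool.Agent.helper27.AN.TH
import Pool.Agent.helper31.AN.DE0
import Pool.Agent.helper31.AN.FG3
import Pool.Agent.helper32.AN.BC
import Pool.Agent.helper32.AN.CA
import Pool.Agent.helper33.AN.DF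
import Pool.Agent.helper33.AN.FC0
import Pool.Agent.helper33.AN.ZB
import Pool.Agent.helper43.AN.FH2
import Pool.Agent.helper43.AN.PA
import Pool.Agent.helper43.AN.TG
import Pool.Agent.helper43.AN.ZB1
import Pool.Agent.helper46.AN.CD
import Pool.Agent.helper46.AN.TB
import Pool.Agent.helper48.AN.ZZ
import Pool.Agent.helper52.AN.FG4
import Pool.Agent.helper52.AN.KE
import Pool.Agent.helper52.AN.TC
import Pool.Agent.helper61.AN.TA
import Pool.Agent.helper63.AN.FE0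
import Pool.Agent.helper63.AN.FK
import Pool.Agent.helper63.AN.ZA
import Pool.Agent.helper63.AN.ZB0
import Pool.Agent.helper63.AN.ZB2
import Pool.Agent.helper63.AN.ZC
import Pool.Agent.helper63.AN.ZR
import Pool.Agent.helper64.AN.ZA2
import Pool.Agent.helper7.AN.DJ0
import Pool.Agent.helper7.AN.DZ
import Pool.Agent.helper70.AN.CB
import Pool.Agent.helper70.AN.DG
import Pool.Agent.helper70.AN.PO1
import Pool.Agent.helper72.AN.CE
import Pool.Agent.helper73.AN.TD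
import Pool.Agent.helper74.AN.FA
import Pool.Agent.helper74.AN.FB
import Pool.Agent.helper78.AN.DC
import Pool.Agent.helper78.AN.FD
import Pool.Agent.helper78.AN.FG1
import Pool.Agent.helper79.AN.ZE
import Pool.Agent.helper87.AN.DE
import Pool.Agent.helper87.AN.FE
import Pool.Agent.helper87.AN.PC
import Pool.Agent.helper87.AN.ZF
import Pool.Agent.helper90.AN.PM1
import Pool.Agent.helper90.AN.PM2
import Pool.Agent.helper90.AN.PM3
import Pool.Agent.helper90.AN.PO2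
import Pool.Agent.helper91.AN.EA1
import Pool.Agent.helper91.AN.FCR
import Pool.Agent.helper91.AN.PM4
import Pool.Agent.helper92.AN.DA
import Pool.Agent.helper97.AN.DD
import Pool.Agent.helper97.AN.FC1
import Pool.Agent.helper97.AN.FT
import Pool.Agent.helper97.AN.KA
import Pool.Agent.helper97.AN.KB
import Pool.Agent.helper97.AN.KF
import Pool.Agent.helper97.AN.PF
import Pool.Agent.helper97.AN.PN
import Pool.Agent.helper97.AN.ZA1
import Pool.Agent.helper97.AN.ZD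
import Pool.Agent.helper98.AN.DL
import Pool.Agent.helper98.AN.EA
import Pool.Agent.helper98.AN.FG
import Pool.Agent.helper98.AN.PB

namespace AN

theorem a_KA : KA_stmt := KA
theorem a_KB : KB_stmt := KB a_KA
theorem a_KC : KC_stmt := KC
theorem a_KD : KD_stmt := KD a_KA
theorem a_KE : KE_stmt := KE
theorem a_CA : CA_stmt := CA
theorem a_CB : CB_stmt := CB a_CA
theorem a_CC : CC_stmt := CC
theorem a_CD : CD_stmt := CD a_KB a_CB
theorem a_CE : CE_stmt := CE a_KB a_KD a_CC a_CD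
theorem a_TA : TA_stmt := TA
theorem a_TB : TB_stmt := TB a_KB
theorem a_TC : TC_stmt := TC
theorem a_TD : TD_stmt := TD a_KA a_KB
theorem a_TE : TE_stmt := TE a_TA a_TD a_KB
theorem a_TF : TF_stmt := TF a_TE a_TA a_KB a_KC
theorem a_TG : TG_stmt := TG a_KB a_TA a_TB a_TC a_TE a_TF
theorem a_TH : TH_stmt := TH a_TG a_CE a_KE
theorem a_BC : BC_stmt := BC
theorem a_PB : PB_stmt := PB
theorem a_PC : PC_stmt := PC a_PB
theorem a_PA : PA_stmt := PA a_PB
theorem a_PF : PF_stmt := PF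
theorem a_PE : PE_stmt := PE a_PF
theorem a_PG : PG_stmt := PG
theorem a_PH : PH_stmt := PH a_PG
theorem a_PI : PI_stmt := PI
theorem a_PJ : PJ_stmt := PJ a_PF a_PG
theorem a_PK : PK_stmt := PK a_PA a_PC a_PE a_PG a_PH a_PI a_PJ
theorem a_PL : PL_stmt := PL a_PK a_PG
theorem a_PM1 : PM1_stmt := PM1
theorem a_PM2 : PM2_stmt := PM2
theorem a_PM3 : PM3_stmt := PM3
theorem a_PM4 : PM4_stmt := PM4
theorem a_PN : PN_stmt := PN a_PM1 a_PM2 a_PM3 a_PM4
theorem a_PO1 : PO1_stmt := PO1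
theorem a_PO2 : PO2_stmt := PO2
theorem a_PO : PO_stmt := PO a_PO1 a_PO2
theorem a_DA : DA_stmt := DA
theorem a_DB : DB_stmt := DB a_DA
theorem a_DC : DC_stmt := DC a_DA a_DB
theorem a_DD : DD_stmt := DD
theorem a_DE0 : DE0_stmt := DE0 a_DA
theorem a_DF : DF_stmt := DF
theorem a_DE : DE_stmt := DE a_DB a_DE0 a_DF
theorem a_DG : DG_stmt := DG
theorem a_DH : DH_stmt := DH a_DB a_DD a_DF a_DG a_KA
theorem a_DI : DI_stmt := DI a_DB a_DC a_DE a_DF a_KB
theorem a_DK : DK_stmt := DK a_TB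
theorem a_DJ0 : DJ0_stmt := DJ0
theorem a_DJ : DJ_stmt := DJ a_DJ0 a_DI a_DK a_KA
theorem a_DL : DL_stmt := DL a_DB a_DC a_DD a_DF a_DG
theorem a_DZ : DZ_stmt := DZ a_DH a_DI a_DJ a_DL
theorem a_EA1 : EA1_stmt := EA1
theorem a_EA2 : EA2_stmt := EA2
theorem a_EA : EA_stmt := EA a_DZ a_BC a_PG a_PL a_PN a_PO a_TH a_EA1 a_EA2
theorem a_FA : FA_stmt := FA Pool.Agent.helper53.AU.aQV1
theorem a_FB : FB_stmt := FB Pool.Agent.helper53.AU.aQK3 Pool.Agent.helper53.AU.aQK5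
theorem a_FC0 : FC0_stmt := FC0
theorem a_FCR : FCR_stmt := FCR
theorem a_FC1 : FC1_stmt := FC1
theorem a_FC : FC_stmt := FC a_FC0 a_FCR a_FC1
theorem a_FD : FD_stmt := FD
theorem a_FE : FE_stmt := FE
theorem a_FE0 : FE0_stmt := FE0
theorem a_FS : FS_stmt := FS a_FE a_FE0 a_FC a_FD a_FB a_DJ0
theorem a_FT : FT_stmt := FT a_FB a_FE a_FE0
theorem a_FG1 : FG1_stmt := FG1 a_PE a_PF
theorem a_FG2 : FG2_stmt := FG2 a_KA a_KB a_KD a_KE
theorem a_FG3 : FG3_stmt := FG3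
theorem a_FG4 : FG4_stmt := FG4 a_FG3
theorem a_FH0 : FH0_stmt := FH0
theorem a_FG : FG_stmt := FG a_FB a_FD a_FG1 a_FG2 a_FG4
theorem a_FH1 : FH1_stmt := FH1 a_FB a_FD a_CB a_CC a_FG2 a_FH0
theorem a_FK : FK_stmt := FK
theorem a_FH2 : FH2_stmt := FH2 a_KA a_KB a_KE a_CE a_FB a_FK
theorem a_KF : KF_stmt := KF a_KA a_KD
theorem a_ZA1 : ZA1_stmt := ZA1 a_KB
theorem a_ZA2 : ZA2_stmt := ZA2 a_KB a_ZA1
theorem a_ZA : ZA_stmt := ZA a_ZA2
theorem a_ZB0 : ZB0_stmt := ZB0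
theorem a_ZB1 : ZB1_stmt := ZB1 a_KB a_KF a_ZA2 a_FC
theorem a_ZB2 : ZB2_stmt := ZB2 a_KA
theorem a_ZB : ZB_stmt := ZB a_ZA a_ZB0 a_ZB1 a_ZB2 a_FS
theorem a_ZC : ZC_stmt := ZC
theorem a_ZD : ZD_stmt := ZD
theorem a_ZE : ZE_stmt := ZE a_KA
theorem a_ZF : ZF_stmt := ZF a_KB a_BC a_ZA1 a_ZC a_ZE
theorem a_ZG : ZG_stmt := ZG a_KA a_ZA1 a_BC
theorem a_ZR : ZR_stmt := ZR
theorem a_ZZ : ZZ_stmt := ZZ a_ZD a_FA a_FS a_FT a_FG a_EA a_BC a_ZA a_ZF a_ZG a_ZB a_ZB0 a_ZB1 a_FH1 a_FH2 a_ZR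

end AN
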