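import Pool.Agent.helper48.AN.Base

/-!
# Project an (MP_263b92_ag): one-point data of a curve

A pointed curve `(C, P)` of genus `g` over a ring `R` with a coordinate `s` at `P` is described by the ring
`A = O(C - P)` inside the Laurent series `LS R`. `γ` enumerates the `g` gaps at `P`; `A` has the echelon basis `a r`
(`r` a non-gap): `a r = s^(-r) + (terms s^(-γ i)) + s R[[s]]`.
-/

namespace AN

open scoped Classical

noncomputable section

variable {R : Type} [CommRing R]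

/-- `r` is one of the gaps -/
def Gp {g : ℕ} (γ : Fin g → ℕ) (r : ℕ) : Prop := ∃ i, γ i = r

/-- the module `A` (a ring if `IsK` holds), spanned by the `a r`, `r` not a gap -/
def AA {g : ℕ} (γ : Fin g → ℕ) (a : ℕ → LS R) : Submodule R (LS R) :=
  Submodule.span R {x | ∃ r, ¬ Gp γ r ∧ x = a r}

/-- the module `A · dA` of differentials (`f ds` is written `f`) -/
def OmA {g : ℕ} (γ : Fin g → ℕ) (a : ℕ → LS R) : Submodule R (LS R) :=
  Submodule.span R {x | ∃ f ∈ AA γ a, ∃ h ∈ AA γ a, x = f * dd h}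

/-- the echelon basis of the annihilator of `A` under the residue pairing (for `n ≤ -2` or `n = γ i - 1`):
`om n = s^n - ∑_{r not a gap} (coefficient of s^(-1-n) in a r) s^(r-1)`. -/
def om {g : ℕ} (γ : Fin g → ℕ) (a : ℕ → LS R) (n : ℤ) : LS R :=
  ofFun (fun m => if m = n then 1 else
      if -1 ≤ m ∧ ¬ Gp γ (m + 1).toNat then -cf (a (m + 1).toNat) (-1 - n) else 0)
    (min n (-1)) fun m hm => by
      rw [if_neg (by omega), if_neg (by omega)]

/-- the one-point data of a smooth curve over `R` -/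
structure IsK {g : ℕ} (γ : Fin g → ℕ) (a : ℕ → LS R) : Prop where
  inj : Function.Injective γ
  pos : ∀ i, 0 < γ i
  /-- `A` contains the constants -/
  one : a 0 = 1
  /-- the echelon form -/
  coef : ∀ r r' : ℕ, ¬ Gp γ r → ¬ Gp γ r' → cf (a r) (-(r' : ℤ)) = if r = r' then 1 else 0
  /-- `A` is a ring -/
  mul : ∀ r r' : ℕ, ¬ Gp γ r → ¬ Gp γ r' → a r * a r' ∈ AA γ a
  /-- the residue theorem -/
  res0 : ∀ r r' : ℕ, ¬ Gp γ r → ¬ Gp γ r' → res (a r * dd (a r')) = 0
  /-- smoothness: the annihilator of `A` is generated by the exact differentials `d a`, `a ∈ A` -/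
  gen : ∀ n : ℤ, (n ≤ -2 ∨ ∃ i, n = (γ i : ℤ) - 1) → om γ a n ∈ OmA γ a

/-- the module of vector fields on `C - P` (the field `f d/ds` is written `f`): echelon basis `τ n`, `n ≥ 1` not among the
`ν j` (the `N` gaps of the tangent sheaf). -/
def TT {N : ℕ} (ν : Fin N → ℕ) (τ : ℕ → LS R) : Submodule R (LS R) :=
  Submodule.span R {x | ∃ n, 1 ≤ n ∧ ¬ Gp ν n ∧ x = τ n}

structure IsT {g N : ℕ} (γ : Fin g → ℕ) (a : ℕ → LS R) (ν : Fin N → ℕ) (τ : ℕ → LS R) : Prop where
  inj : Function.Injective ν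
  pos : ∀ i, 0 < ν i
  coef : ∀ n n' : ℕ, 1 ≤ n → 1 ≤ n' → ¬ Gp ν n → ¬ Gp ν n' →
    cf (τ n) (-(n' : ℤ)) = if n = n' then 1 else 0
  act : ∀ n r : ℕ, 1 ≤ n → ¬ Gp ν n → ¬ Gp γ r → τ n * dd (a r) ∈ AA γ a

/-- the Hasse-Witt matrix: `(s^(-γ j))^p = ∑ i, HW i j * s^(-γ i)` modulo `A + R[[s]]` -/
def HW (p : ℕ) {g : ℕ} (γ : Fin g → ℕ) (a : ℕ → LS R) : Matrix (Fin g) (Fin g) R := fun i j =>
  if Gp γ (p * γ j) then (if γ i = p * γ j then 1 else 0) else -cf (a (p * γ j)) (-(γ i : ℤ))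

/-- entrywise `p`-th powers -/
def frM (p : ℕ) {m n : Type} (M : Matrix m n R) : Matrix m n R := M.map fun x => x ^ p

/-- `MN p H n = H H^(p) H^(p^2) ... H^(p^(n-1))`, the matrix of the `n`-th iterate of the `p`-linear map `x ↦ H x^(p)` -/
def MN (p : ℕ) {g : ℕ} (H : Matrix (Fin g) (Fin g) R) : ℕ → Matrix (Fin g) (Fin g) R
  | 0 => 1
  | n + 1 => H * frM p (MN p H n)

/-- `p`-nilpotency (`p`-rank 0) -/
def PNil (p : ℕ) {g : ℕ} (H : Matrix (Fin g) (Fin g) R) : Prop := MN p H g = 0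

/-- entrywise `p`-th power of a vector -/
def frV (p : ℕ) {m : Type} (x : m → R) : m → R := fun i => x i ^ p

end

end AN
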