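import Pool.Agent.helper48.AN.Defs

/-!
# Project an (MP_263b92_ag), part A: the abstract theorem over a field `K` of characteristic `p`

Rules: file `Pool/Agent/<seat>/AN/XX.lean`, `import Pool.Agent.helper48.AN.SpecA`, `namespace AN`,
`theorem XX (h : YY_stmt) ... : XX_stmt`; every other statement of the specs of this project may be taken as a hypothesis.
Auxiliary lemmas prefixed `XX_`. API of Laurent series: `Base.lean` (`cf`, `LS.ext`, `cf_mul_finset`, `GE_mul`, `dd_mul`,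
`cf_pow_char`, ...). Notation: `e j = mono (-(γ j)) 1`, `η i = om γ a (γ i - 1)`, `A = AA γ a`, `Ω = OmA γ a`.
-/

namespace AN

open scoped Classical

noncomputable section

/-! ## K: linear algebra of one-point data (any commutative ring) -/

/-- KA: the decomposition `LS R = A ⊕ ⊕ R s^(-γ i) ⊕ s R[[s]]`.
Proof: `x` has finitely many polar terms; subtract `cf x (-r) • a r` for the non-gaps `r` with `0 ≤ r ≤ M`; the rest has zero coefficients at all `-r`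
(`IsK.coef`; also for `r > M` since `a r'`, `r' ≤ M`, has coefficient 0 there), so it is a combination of the `s^(-γ i)` plus an element of `s R[[s]]`.
Uniqueness: an element of `A` is a finite combination `∑ x_r a r` and `x_r` is its coefficient at `-r`. -/
def KA_stmt : Prop := ∀ (R : Type) [CommRing R] (g : ℕ) (γ : Fin g → ℕ) (a : ℕ → LS R), IsK γ a →
  (∀ x : LS R, ∃ α ∈ AA γ a, ∃ c : Fin g → R, ∃ o ∈ GE R 1, x = α + ∑ i, mono (-(γ i : ℤ)) (c i) + o) ∧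
  (∀ α ∈ AA γ a, ∀ c : Fin g → R, ∀ o ∈ GE R 1, α + ∑ i, mono (-(γ i : ℤ)) (c i) + o = 0 →
    α = 0 ∧ c = 0 ∧ o = 0) ∧
  ∀ α ∈ AA γ a, ∀ M : ℕ, (∀ r : ℕ, M < r → ¬ Gp γ r → cf α (-(r : ℤ)) = 0) →
    α = ∑ r ∈ Finset.range (M + 1), if Gp γ r then 0 else cf α (-(r : ℤ)) • a r

/-- KB: formal consequences: constants, `A` is a ring, residue theorem, `A Ω ⊆ Ω`.
(`A ∩ R[[s]]`: subtract the constant term times `a 0 = 1` and use KA.) -/
def KB_stmt : Prop := ∀ (R : Type) [CommRing R] (g : ℕ) (γ : Fin g → ℕ) (a : ℕ → LS R), IsK γ a →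
  (∀ r, ¬ Gp γ r → a r ∈ AA γ a) ∧
  (∀ c : R, LS.C c ∈ AA γ a) ∧
  (∀ f ∈ AA γ a, f ∈ PS R → ∃ c : R, f = LS.C c) ∧
  (∀ f ∈ AA γ a, ∀ h ∈ AA γ a, f * h ∈ AA γ a) ∧
  (∀ f ∈ AA γ a, ∀ h ∈ AA γ a, res (f * dd h) = 0) ∧
  (∀ f ∈ AA γ a, dd f ∈ OmA γ a) ∧
  (∀ f ∈ AA γ a, ∀ ω ∈ OmA γ a, f * ω ∈ OmA γ a) ∧
  (∀ ω ∈ OmA γ a, res ω = 0)

/-- KC: duality: the annihilator of `A` under the residue pairing is `Ω = A dA`.
Proof: `S = {n ≤ -2} ∪ {γ i - 1}`. The complement of `S` in `ℤ` is `{r - 1 : r a non-gap}`. First `res (a r * om n) = 0` for `n ∈ S`, `r` a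
non-gap: it is `cf (a r) (-1-n) - ∑_{r'} cf (a r) (-r') cf (a r') (-1-n) = 0` by `IsK.coef`. Subtract from `η` the finitely many
`cf η n • om n`, `n ∈ S` (they are in `Ω` by `IsK.gen`, `S` is bounded above and `η` bounded below); the rest `η'` is supported on the
complement of `S` and `0 = res (a r * η') = cf η' (r - 1)`. -/
def KC_stmt : Prop := ∀ (R : Type) [CommRing R] (g : ℕ) (γ : Fin g → ℕ) (a : ℕ → LS R), IsK γ a →
  ∀ η : LS R, (∀ f ∈ AA γ a, res (f * η) = 0) → η ∈ OmA γ a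

/-- KD: the dual basis `η i = om (γ i - 1)` of the regular differentials. (`res (a r * om n) = 0` as in KC; the coefficient of `s^(-1)` in
`om (γ i - 1)` is `- cf 1 (-γ i) = 0`.) -/
def KD_stmt : Prop := ∀ (R : Type) [CommRing R] (g : ℕ) (γ : Fin g → ℕ) (a : ℕ → LS R), IsK γ a →
  (∀ i, om γ a ((γ i : ℤ) - 1) ∈ OmA γ a) ∧ (∀ i, om γ a ((γ i : ℤ) - 1) ∈ PS R) ∧
  (∀ i j, res (mono (-(γ j : ℤ)) 1 * om γ a ((γ i : ℤ) - 1)) = if i = j then 1 else 0) ∧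
  (∀ x : LS R, (∀ i, res (x * om γ a ((γ i : ℤ) - 1)) = 0) → ∃ α ∈ AA γ a, ∃ o ∈ PS R, x = α + o) ∧
  (∀ n : ℤ, (n ≤ -2 ∨ ∃ i, n = (γ i : ℤ) - 1) → ∀ f ∈ AA γ a, res (f * om γ a n) = 0)

/-- KE: the Hasse-Witt matrix. (`(s^(-γ j))^p = s^(-p γ j)`; if `r = p γ j` is not a gap then `s^(-r) - a r` is `- ∑ cf (a r) (-γ i) s^(-γ i)` modulo `PS`.) -/
def KE_stmt : Prop := ∀ (p : ℕ) [Fact p.Prime] (R : Type) [CommRing R] [CharP R p] (g : ℕ) (γ : Fin g → ℕ)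
  (a : ℕ → LS R), IsK γ a → ∀ j, ∃ α ∈ AA γ a, ∃ o ∈ PS R,
    (mono (-(γ j : ℤ)) (1 : R)) ^ p = (∑ i, mono (-(γ i : ℤ)) (HW p γ a i j)) + α + o

/-! ## C: Frobenius and Cartier -/

/-- CA: exact Laurent series in characteristic `p`: exactly those without terms `s^m`, `m = -1` modulo `p`
(integers prime to `p` are invertible in a ring of characteristic `p`). -/
def CA_stmt : Prop := ∀ (p : ℕ) [Fact p.Prime] (R : Type) [CommRing R] [CharP R p] (z : LS R),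
  (∃ y : LS R, z = dd y) ↔ ∀ m : ℤ, (p : ℤ) ∣ m + 1 → cf z m = 0

/-- CB: Cartier's identity `C (b^(p-1) db) = db`.
Proof: by CA one has to compare the coefficients at `m = p n - 1`: `cf (b^(p-1) b') (p n - 1) = n (cf b n)^p` and the same for `(b')^p s^(p-1)` (`cf_pow_char`,
`n^p = n`). The map `b ↦ b^(p-1) b'` is additive modulo exact series: `(b+c)^(p-1) (b+c)' - b^(p-1) b' - c^(p-1) c' = dd Q`, `Q = ∑_{0<i<p} (1/p) (p choose i) b^i c^(p-i)`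
(integer coefficients `(p choose i) / p`; check: `i (p choose i) / p = (p-1 choose i-1)` and `(p-i) (p choose i) / p = (p-1 choose i)`). For monomials the
formula is clear. For general `b` truncate: `b = P + Q`, `P` a finite sum of monomials, `Q ∈ GE M` with `M` large: `Q^(p-1) Q' ∈ GE (p M - 1)` does not
matter. -/
def CB_stmt : Prop := ∀ (p : ℕ) [Fact p.Prime] (R : Type) [CommRing R] [CharP R p] (b : LS R),
  ∃ y : LS R, b ^ (p - 1) * dd b = (dd b) ^ p * mono ((p : ℤ) - 1) 1 + dd y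

/-- CC: the pairing and Frobenius: `res (f^p ζ) = (res (f η))^p` if `ζ = η^p s^(p-1) + dd y` (`dd (f^p y) = f^p dd y`, `res_dd`, `cf_pow_char`). -/
def CC_stmt : Prop := ∀ (p : ℕ) [Fact p.Prime] (R : Type) [CommRing R] [CharP R p] (f η ζ y : LS R),
  ζ = η ^ p * mono ((p : ℤ) - 1) 1 + dd y → res (f ^ p * ζ) = (res (f * η)) ^ p

/-- CD: every `η ∈ Ω` has an inverse Cartier transform `ζ ∈ Ω`. Proof: CB, for `η = f dh` take `ζ = f^p h^(p-1) dh` (`y` is multiplied by `f^p`, and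
`f^p dd y = dd (f^p y)`); sums; `c • η`: `c^p • ζ`. -/
def CD_stmt : Prop := ∀ (p : ℕ) [Fact p.Prime] (R : Type) [CommRing R] [CharP R p] (g : ℕ) (γ : Fin g → ℕ)
  (a : ℕ → LS R), IsK γ a → ∀ η ∈ OmA γ a, ∃ ζ ∈ OmA γ a, ∃ y : LS R,
    ζ = η ^ p * mono ((p : ℤ) - 1) 1 + dd y

/-- CE: injectivity: if `∑ v_j (s^(-γ j))^p = α + o` with `dα = 0` then `v = 0`.
Proof: for `η = η i` (KD) let `ζ` be as in CD. `v_i = v_i (res (e_i η))^p = ∑_j v_j (res (e_j η))^p = ∑ v_j res (e_j^p ζ) = res (α ζ) + res (o ζ)` (CC). The first term is 0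
(`α ζ ∈ Ω`, KB). `dd o = - dd α = 0`, so `res (o ζ) = res (o η^p s^(p-1)) + res (dd (o y)) = 0` as `o η^p s^(p-1) ∈ PS`. -/
def CE_stmt : Prop := ∀ (p : ℕ) [Fact p.Prime] (R : Type) [CommRing R] [CharP R p] (g : ℕ) (γ : Fin g → ℕ)
  (a : ℕ → LS R), IsK γ a → ∀ (v : Fin g → R), ∀ α ∈ AA γ a, ∀ o ∈ PS R,
    ∑ j, LS.C (v j) * (mono (-(γ j : ℤ)) (1 : R)) ^ p = α + o → dd α = 0 → v = 0

/-! ## T: the abstract theorem -/

/-- TA: derivations. `E = D + θ d/ds` preserves `A` as soon as `E (a r) ∈ A` (Leibniz rule `cD_smul`), and the Lie derivative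
`L_E ω = D ω + d (θ ω)` preserves `Ω`: `L_E (f dh) = E(f) dh + f d(E h)`. If `f^p = g₀ + o₀`, then `D g₀ = - D o₀` (`D (f^p) = 0`). -/
def TA_stmt : Prop := ∀ (p : ℕ) [Fact p.Prime] (R : Type) [CommRing R] [CharP R p] (g : ℕ) (γ : Fin g → ℕ)
  (a : ℕ → LS R), IsK γ a → ∀ (D : Derivation ℤ R R) (θ : LS R),
    (∀ r, ¬ Gp γ r → cD D (a r) + θ * dd (a r) ∈ AA γ a) →
    (∀ f ∈ AA γ a, cD D f + θ * dd f ∈ AA γ a) ∧
    (∀ ω ∈ OmA γ a, cD D ω + dd (θ * ω) ∈ OmA γ a) ∧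
    (∀ f g₀ o₀ : LS R, f ^ p = g₀ + o₀ → cD D g₀ = -cD D o₀)

/-- TB: finite codimension. `Ω = w A + (Ω ∩ GE (-m))` for some `m` (for `w ∈ Ω`, `w ≠ 0` of order `v`, the elements `w a r` have order exactly `v - r`, `r` a
non-gap; all large orders occur), and `Ω ∩ GE (-m)` is finite-dimensional: it is spanned by the `om n`, `n ≥ -m` (proof of KC). -/
def TB_stmt : Prop := ∀ (K : Type) [Field K] (g : ℕ) (γ : Fin g → ℕ) (a : ℕ → LS K), IsK γ a →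
  (∀ m : ℤ, FiniteDimensional K (OmA γ a ⊓ GE K m : Submodule K (LS K))) ∧
  ∀ w ∈ OmA γ a, w ≠ 0 → ∃ m : ℤ, ∀ ω ∈ OmA γ a, ∃ f ∈ AA γ a, ω - w * f ∈ GE K m

/-- TC: `f ∈ K[[s]]` algebraic over `K` is a constant (lowest term of `f - f(0)` in the minimal equation). -/
def TC_stmt : Prop := ∀ (K : Type) [Field K] (f : LS K), f ∈ PS K →
  (∃ P : Polynomial K, P ≠ 0 ∧ Polynomial.eval₂ (LS.C : K →+* LS K) f P = 0) → ∃ c : K, f = LS.C c

/-- TD: bijectivity of Kodaira-Spencer.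
`θ i` has polar part `∑_j M j i s^(-ν j)` (`det M ≠ 0`). Proof: `Q_T = LS K / (TT + PS)` has the basis `s^(-ν j)` (echelon form of `τ`, as in KA), so the classes of the `θ i`
form a basis. `Q_A = LS K / (A + PS)` has dimension `g` (KA). Multiplication by `w` is onto `LS K → LS K`, maps `TT` to `A` (`w = dd g₀`, `IsT.act`, linearity) and
`PS` to `PS`, so it induces a surjection `Q_T → Q_A` with kernel `Θ` of dimension `N - g`. The map `S → Θ`, `d ↦ ∑ d_i θ_i`, is injective and `dim S ≥ N - g`, so it is onto. -/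
def TD_stmt : Prop := ∀ (K : Type) [Field K] (g N : ℕ) (γ : Fin g → ℕ) (a : ℕ → LS K) (ν : Fin N → ℕ)
  (τ : ℕ → LS K), IsK γ a → IsT γ a ν τ → ∀ (θ : Fin N → LS K) (M : Matrix (Fin N) (Fin N) K),
  M.det ≠ 0 → (∀ i, θ i - ∑ j, mono (-(ν j : ℤ)) (M j i) ∈ PS K) →
  ∀ (S : Submodule K (Fin N → K)), N ≤ Module.finrank K S + g →
  ∀ g₀ ∈ AA γ a, dd g₀ ∈ PS K → dd g₀ ≠ 0 →
    (∀ d ∈ S, ∃ α ∈ AA γ a, ∃ o ∈ PS K, (∑ i, LS.C (d i) * θ i) * dd g₀ = α + o) →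
    ∀ x : LS K, (∃ α ∈ AA γ a, ∃ o ∈ PS K, x * dd g₀ = α + o) →
      ∃ d ∈ S, ∃ t ∈ TT ν τ, ∃ ρ ∈ PS K, x = (∑ i, LS.C (d i) * θ i) + t + ρ

/-- the hypotheses of the abstract theorem: for every `d ∈ S` there is a derivation `D` of `K` such that
`D + (∑ d_i θ_i) d/ds` preserves `A`. -/
structure ATHyp (p : ℕ) {K : Type} [Field K] {g N : ℕ} (γ : Fin g → ℕ) (a : ℕ → LS K)
    (ν : Fin N → ℕ) (τ : ℕ → LS K) (θ : Fin N → LS K) (M : Matrix (Fin N) (Fin N) K)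
    (S : Submodule K (Fin N → K)) : Prop where
  isK : IsK γ a
  isT : IsT γ a ν τ
  det : M.det ≠ 0
  pol : ∀ i, θ i - ∑ j, mono (-(ν j : ℤ)) (M j i) ∈ PS K
  dim : N ≤ Module.finrank K S + g
  der : ∀ d ∈ S, ∃ D : Derivation ℤ K K, ∀ r, ¬ Gp γ r →
    cD D (a r) + (∑ i, LS.C (d i) * θ i) * dd (a r) ∈ AA γ a

/-- TE: every function is moved by a derivation. `w = dd g₀ = - dd o₀`.
Proof: `d ∈ S` satisfies `θ_d w = E(g₀) - D g₀ = E(g₀) + D o₀ ∈ A + PS` (TA). So TD applies. For `α ∈ A` take `x = α / w = θ_d + t + ρ`; `α - t w - E(g₀) = ρ w - D g₀` is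
in `A` and in `PS`, so it is a constant; `θ' = θ_d + t`. For `b ∈ PS` take `x = b / w`: `E(g₀) + t w = b - ρ w - D o₀` is constant (up to sign); `ρ' = -ρ`. -/
def TE_stmt : Prop := ∀ (p : ℕ) [Fact p.Prime] (K : Type) [Field K] [CharP K p] (g N : ℕ)
  (γ : Fin g → ℕ) (a : ℕ → LS K) (ν : Fin N → ℕ) (τ : ℕ → LS K) (θ : Fin N → LS K)
  (M : Matrix (Fin N) (Fin N) K) (S : Submodule K (Fin N → K)), ATHyp p γ a ν τ θ M S →
  ∀ g₀ ∈ AA γ a, ∀ o₀ ∈ PS K, ∀ f₀ : LS K, f₀ ^ p = g₀ + o₀ → dd g₀ ≠ 0 →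
    (∀ α ∈ AA γ a, ∃ (D : Derivation ℤ K K) (θ' : LS K) (c : K),
      (∀ r, ¬ Gp γ r → cD D (a r) + θ' * dd (a r) ∈ AA γ a) ∧
      α = cD D g₀ + θ' * dd g₀ + LS.C c) ∧
    (∀ b ∈ PS K, ∃ (D : Derivation ℤ K K) (c : K), ∃ ρ ∈ PS K,
      b = cD D o₀ + ρ * dd o₀ + LS.C c) ∧
    (∀ x : LS K, (∃ α ∈ AA γ a, ∃ o ∈ PS K, x * dd g₀ = α + o) →
      ∃ d ∈ S, ∃ t ∈ TT ν τ, ∃ ρ ∈ PS K, x = (∑ i, LS.C (d i) * θ i) + t + ρ)

/-- TF: products of exact regular differentials are divisible by `w`.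
`u = dd α`, `u' = dd α'` in `PS`. Proof: for `θ_d`, `D` as in `ATHyp.der`: `θ_d u = E(α) - D α`; `α = κ + b`, `κ` the polar part, `dd κ = 0` (as `u ∈ PS`), `b ∈ PS`;
`res (E(α) u') = 0` (KB), `res (D κ u') = res (dd (D κ α')) = 0`, `res (D b u') = 0`. So `res (θ_d u u') = 0`; also `res (t u u') = 0` (`t u ∈ A`, `u' ∈ Ω`) and
`res (ρ u u') = 0`. By the third part of TE `res (x u u') = 0` for all `x` with `x w ∈ A + PS`; for `x = f / w`, `f ∈ A`: `u u' / w ∈ Ω` (KC); for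
`x = s^n / w`, `n ≥ 0`: `u u' / w ∈ PS`. -/
def TF_stmt : Prop := ∀ (p : ℕ) [Fact p.Prime] (K : Type) [Field K] [CharP K p] (g N : ℕ)
  (γ : Fin g → ℕ) (a : ℕ → LS K) (ν : Fin N → ℕ) (τ : ℕ → LS K) (θ : Fin N → LS K)
  (M : Matrix (Fin N) (Fin N) K) (S : Submodule K (Fin N → K)), ATHyp p γ a ν τ θ M S →
  ∀ g₀ ∈ AA γ a, ∀ o₀ ∈ PS K, ∀ f₀ : LS K, f₀ ^ p = g₀ + o₀ → dd g₀ ≠ 0 →
  ∀ α ∈ AA γ a, ∀ α' ∈ AA γ a, dd α ∈ PS K → dd α' ∈ PS K →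
    (dd α * dd α') / dd g₀ ∈ OmA γ a ∧ (dd α * dd α') / dd g₀ ∈ PS K

/-- TG: the quotient of two exact regular differentials is constant.
Proof: `w = dd g₀`, `u = dd α`, `f = u / w`, `v = f u = u² / w ∈ Ω ∩ PS` (TF). Let `L ω = D ω + dd (θ' ω)`. (a) For `β ∈ A` take `D, θ'` as in TE: `dd β = L w`
(`dd` of `β = D g₀ + θ' w + c`), `L u = (D f + θ' dd f) w + f L w`, `L v = 2 f (D f + θ' dd f) w + f² L w` (`cD_mul`, `dd_mul`), so `f² dd β = 2 f L u - L v ∈ f Ω + Ω` (TA).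
Hence `f² Ω ⊆ X := Ω + f Ω` and `f X ⊆ X`. (b) For `b = s ∈ PS` take `D, ρ` of TE: `L ω = D ω + dd (ρ ω)` preserves `PS` and `1 = dd s = L (dd o₀) = - L w`, so
`f² ∈ f PS + PS`; if `f` had negative order `-j` this fails (`f² ` has order `-2 j`); so `f ∈ PS`. (c) `f^n w ∈ X ∩ PS` for all `n`. `X ∩ PS` is finite-dimensional: `Ω ∩ PS` is (TB), and
`X / Ω` is a quotient of `Ω / w A` (`f w A = u A ⊆ Ω`), finite-dimensional by TB. So `f` is algebraic over `K`; TC. -/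
def TG_stmt : Prop := ∀ (p : ℕ) [Fact p.Prime] (K : Type) [Field K] [CharP K p] (g N : ℕ)
  (γ : Fin g → ℕ) (a : ℕ → LS K) (ν : Fin N → ℕ) (τ : ℕ → LS K) (θ : Fin N → LS K)
  (M : Matrix (Fin N) (Fin N) K) (S : Submodule K (Fin N → K)), ATHyp p γ a ν τ θ M S →
  ∀ g₀ ∈ AA γ a, ∀ o₀ ∈ PS K, ∀ f₀ : LS K, f₀ ^ p = g₀ + o₀ → dd g₀ ≠ 0 →
  ∀ α ∈ AA γ a, dd α ∈ PS K → ∃ c : K, dd α = LS.C c * dd g₀

/-- TH: THE ABSTRACT THEOREM: the kernel of the Hasse-Witt matrix is at most one-dimensional.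
Proof: `x ≠ 0`, `H x^(p) = 0`; `f₀ = ∑ x_j e_j`, `f₀^p = ∑ x_j^p e_j^p = g₀ + o₀` with `g₀ ∈ A`, `o₀ ∈ PS` (KE); `dd g₀ = - dd o₀ ∈ PS`, `≠ 0` by CE. For `v` in the kernel of `H`:
`∑ v_j e_j^p = α_v + o_v` (KE), `dd α_v ∈ PS`, `dd α_v = c_v w` (TG). For two vectors `v`, `v'` in the kernel: `c_v' v - c_v v'` is 0 by CE. So any two kernel vectors are dependent
(and `c_v = 0` implies `v = 0`). -/
def TH_stmt : Prop := ∀ (p : ℕ) [Fact p.Prime] (K : Type) [Field K] [CharP K p] (g N : ℕ)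
  (γ : Fin g → ℕ) (a : ℕ → LS K) (ν : Fin N → ℕ) (τ : ℕ → LS K) (θ : Fin N → LS K)
  (M : Matrix (Fin N) (Fin N) K) (S : Submodule K (Fin N → K)), ATHyp p γ a ν τ θ M S →
  (∃ x : Fin g → K, x ≠ 0 ∧ (HW p γ a).mulVec (frV p x) = 0) →
    g ≤ (HW p γ a).rank + 1

/-! ## base change -/

/-- BC: base change along a ring homomorphism. (`mp φ` maps `AA` into `AA` of the images, `OmA` into `OmA`, `om` to `om`; the conditions are all
finite identities or memberships in spans.) -/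
def BC_stmt : Prop := ∀ (R R' : Type) [CommRing R] [CommRing R'] (φ : R →+* R') (g N : ℕ)
  (γ : Fin g → ℕ) (a : ℕ → LS R) (ν : Fin N → ℕ) (τ : ℕ → LS R), IsK γ a →
    IsK γ (fun r => mp φ (a r)) ∧
    (∀ f ∈ AA γ a, mp φ f ∈ AA γ (fun r => mp φ (a r))) ∧
    (∀ f ∈ OmA γ a, mp φ f ∈ OmA γ (fun r => mp φ (a r))) ∧
    (∀ p : ℕ, HW p γ (fun r => mp φ (a r)) = (HW p γ a).map φ) ∧
    (IsT γ a ν τ → IsT γ (fun r => mp φ (a r)) ν (fun n => mp φ (τ n)))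

end

end AN
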