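import Pool.Agent.helper48.AN.SpecP

/-!
# Project an (MP_263b92_ag), part D: the universal formal deformation

`k` a field, `B = BB k N = k[[t_1..t_N]]`, `KK k N = k((s))[[t_1..t_N]]`. For `h_1, ..., h_N ∈ k((s))` let `δ = ∑ t_i h_i` and let
`Φ(f(s)) = f(s + δ)` (Taylor formula with Hasse derivatives), extended `B`-linearly to `KK`. The deformed curve has the ring
`{f ∈ B((s)) : f ∈ Φ(A[[t]])}`. `sw : B((s)) → KK` exchanges the two kinds of variables.

Rules as in part A (`import Pool.Agent.helper48.AN.SpecD`).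
-/

namespace AN

open scoped Classical
open MvPowerSeries (constantCoeff coeff)

noncomputable section

abbrev KK (k : Type) [Field k] (N : ℕ) : Type := MvPowerSeries (Fin N) (LS k)

/-- Hasse derivative: `s^m ↦ (m choose j) s^(m-j)` -/
def hD {R : Type} [CommRing R] (j : ℕ) (f : LS R) : LS R :=
  ofFun (fun n => ((Ring.choose (n + j) j : ℤ) : R) * cf f (n + j)) ((exists_lb f).choose - j) fun n hn => by
    rw [(exists_lb f).choose_spec (n + j) (by omega), mul_zero]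

/-- a derivation of `R` over `ℤ` from an additive map with the product rule (note: with the generic `ℤ`-algebra structure) -/
def derOf {R : Type} [CommRing R] (f : R →+ R) (h : ∀ a b, f (a * b) = a * f b + b * f a) :
    Derivation ℤ R R :=
  Derivation.mk' f.toIntLinearMap fun a b => by
    have := h a b
    simpa [smul_eq_mul] using this

variable {k : Type} [Field k] {N : ℕ}

/-- `∂/∂t_i` on `B`, as a `ℤ`-derivation -/
def pdB (k : Type) [Field k] (N : ℕ) (i : Fin N) :=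
  derOf (R := BB k N) (MvPowerSeries.pderiv k i).toLinearMap.toAddMonoidHom fun a b => by
    have h := (MvPowerSeries.pderiv k i).leibniz a b
    simp only [smul_eq_mul] at h
    exact h

theorem pdB_apply (k : Type) [Field k] (N : ℕ) (i : Fin N) (b : BB k N) :
    pdB k N i b = MvPowerSeries.pderiv k i b := rfl

/-- exchange of variables `B((s)) → k((s))[[t]]` -/
def sw (f : LS (BB k N)) : KK k N := fun α => cm (coeff (R := k) α).toAddMonoidHom f

/-- `d/ds` on `KK` -/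
def ddK (x : KK k N) : KK k N := fun α => dd (coeff α x)

/-- the residue `KK → B` -/
def resK (x : KK k N) : BB k N := fun α => res (coeff α x)

/-- the inclusion `B → KK` -/
def cB (b : BB k N) : KK k N := fun α => LS.C (coeff α b)

/-- `δ = ∑ t_i h_i` -/
def del (h : Fin N → LS k) : KK k N :=
  ∑ i, MvPowerSeries.X i * MvPowerSeries.C (h i)

/-- `Φ (∑ x_α t^α) = ∑_α t^α x_α(s + δ)` -/
def Phi (h : Fin N → LS k) (x : KK k N) : KK k N := fun α =>
  ∑ q ∈ Finset.HasAntidiagonal.antidiagonal α, ∑ j ∈ Finset.range (q.2.degree + 1),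
    hD j (coeff q.1 x) * coeff q.2 (del h ^ j)

/-- all coefficients (of the `t^α`) are in `U` -/
def CI (U : Submodule k (LS k)) (x : KK k N) : Prop := ∀ α, coeff α x ∈ U

/-- DA: Hasse derivatives: Leibniz rule (Vandermonde: `Ring.add_choose_eq`), composition with `d/ds`. -/
def DA_stmt : Prop := ∀ (R : Type) [CommRing R],
  (∀ f : LS R, hD 0 f = f) ∧ (∀ (j : ℕ) (f g : LS R), hD j (f + g) = hD j f + hD j g) ∧
  (∀ (j : ℕ) (c : R) (f : LS R), hD j (LS.C c * f) = LS.C c * hD j f) ∧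
  (∀ (j : ℕ) (f g : LS R), hD j (f * g) = ∑ q ∈ Finset.HasAntidiagonal.antidiagonal j, hD q.1 f * hD q.2 g) ∧
  (∀ (j : ℕ) (f : LS R), dd (hD j f) = ((j : LS R) + 1) * hD (j + 1) f) ∧
  (∀ (j : ℕ) (f : LS R), hD j (dd f) = ((j : LS R) + 1) * hD (j + 1) f) ∧
  (∀ (j : ℕ) (m : ℤ) (f : LS R), f ∈ GE R m → hD j f ∈ GE R (m - j))

/-- DB: `Φ` is a ring homomorphism, linear over `B`.
Proof: `coeff α (δ^j) = 0` if `|α| < j`, so in the definition of `Φ` the range of `j` may be replaced by any larger one; then multiplicativity is DA and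
the product formula for coefficients. -/
def DB_stmt : Prop := ∀ (k : Type) [Field k] (N : ℕ) (h : Fin N → LS k),
  Phi h 1 = 1 ∧ (∀ x y : KK k N, Phi h (x + y) = Phi h x + Phi h y) ∧
  (∀ x y : KK k N, Phi h (x * y) = Phi h x * Phi h y) ∧
  (∀ (b : BB k N) (x : KK k N), Phi h (cB b * x) = cB b * Phi h x) ∧
  (∀ (α : Fin N →₀ ℕ) (j : ℕ), α.degree < j → coeff α (del h ^ j) = 0)

/-- DC: derivatives: `d/ds Φ(x) = Φ(x') (1 + δ')` and `∂_i Φ(x) = Φ(∂_i x) + Φ(x') h_i` (chain rule; DA), and the product rule for `ddK`. -/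
def DC_stmt : Prop := ∀ (k : Type) [Field k] (N : ℕ) (h : Fin N → LS k),
  (∀ x y : KK k N, ddK (x * y) = ddK x * y + x * ddK y) ∧
  (∀ x : KK k N, ddK (Phi h x) = Phi h (ddK x) * (1 + ddK (del h))) ∧
  (∀ (i : Fin N) (x : KK k N), MvPowerSeries.pderiv (LS k) i (Phi h x) =
    Phi h (MvPowerSeries.pderiv (LS k) i x) + Phi h (ddK x) * MvPowerSeries.C (h i))

/-- DD: `Φ(x) = x + higher terms`; `1 + δ'` is a unit, `= 1 + higher terms`. -/
def DD_stmt : Prop := ∀ (k : Type) [Field k] (N : ℕ) (h : Fin N → LS k),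
  (∀ (n : ℕ) (x : KK k N), (∀ α : Fin N →₀ ℕ, α.degree < n → coeff α x = 0) →
    ∀ α : Fin N →₀ ℕ, α.degree ≤ n → coeff α (Phi h x) = coeff α x) ∧
  ∃ u : KK k N, u * (1 + ddK (del h)) = 1 ∧ ∀ (n : ℕ) (x : KK k N),
    (∀ α : Fin N →₀ ℕ, α.degree < n → coeff α x = 0) →
    ∀ α : Fin N →₀ ℕ, α.degree ≤ n → coeff α (x * u) = coeff α x

/-- DE0: for `j ≥ 1` the residue of `D^(j) f * x^j + D^(j-1) f * x^(j-1) x'` is 0 (over every commutative ring).
Proof: `j` times this is `d/ds (D^(j-1) f * x^j)` (DA), so it is true over torsion-free rings; the general case by lifting `f` and `x` coefficientwise to `MvPolynomial R ℤ → R`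
(surjective, the kernel does not matter; `mp` is compatible with `hD`, `dd`, `res`; only finitely many coefficients matter, but lifting all of them is fine). -/
def DE0_stmt : Prop := ∀ (R : Type) [CommRing R] (f x : LS R) (j : ℕ), 1 ≤ j →
  res (hD j f * x ^ j + hD (j - 1) f * x ^ (j - 1) * dd x) = 0

/-- DE: invariance of the residue: `res (Φ(x) (1 + δ')) = res x`.
Proof: it is enough to take `x = C f`, `f ∈ k((s))` (`B`-linearity and additivity coefficientwise); then `Φ(f) (1 + δ') = f + ∑_{j ≥ 1} (D^(j) f δ^j + D^(j-1) f δ^(j-1) δ')`; apply DE0 in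
`LS (BB k N)` to `f` and `δ` (an element of the image of `sw`, DF), for each coefficient only finitely many `j` matter. -/
def DE_stmt : Prop := ∀ (k : Type) [Field k] (N : ℕ) (h : Fin N → LS k) (x : KK k N),
  resK (Phi h x * (1 + ddK (del h))) = resK x

/-- DF: the exchange of variables. -/
def DF_stmt : Prop := ∀ (k : Type) [Field k] (N : ℕ),
  sw (1 : LS (BB k N)) = 1 ∧ (∀ f g : LS (BB k N), sw (f + g) = sw f + sw g) ∧
  (∀ f g : LS (BB k N), sw (f * g) = sw f * sw g) ∧ Function.Injective (sw : LS (BB k N) → KK k N) ∧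
  (∀ f : LS (BB k N), ddK (sw f) = sw (dd f)) ∧ (∀ f : LS (BB k N), resK (sw f) = res f) ∧
  (∀ (i : Fin N) (f : LS (BB k N)), MvPowerSeries.pderiv (LS k) i (sw f) = sw (cD (pdB k N i) f)) ∧
  (∀ b : BB k N, sw (LS.C b) = cB b) ∧
  (∀ (n : ℤ) (c : k), sw (mono n (MvPowerSeries.C c : BB k N)) = MvPowerSeries.C (mono n c)) ∧
  (∀ (m : ℤ) (f : LS (BB k N)), f ∈ GE (BB k N) m ↔ CI (GE k m) (sw f)) ∧
  (∀ (m : ℤ) (x : KK k N), CI (GE k m) x → ∃ f : LS (BB k N), sw f = x)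

/-- DG: decomposition. `F` additive, `F x = x + higher terms`, `LS k = U ⊕ V`. Then `KK = F(U[[t]]) ⊕ V[[t]]`.
Proof: construct the homogeneous parts of `u`, `v` degree by degree (for the terms of degree `n` of `x - F(u_{<n}) - v_{<n}` use `U ⊔ V = ⊤`); uniqueness: the lowest degree terms. -/
def DG_stmt : Prop := ∀ (k : Type) [Field k] (N : ℕ) (F : KK k N → KK k N),
  (∀ x y, F (x + y) = F x + F y) →
  (∀ (n : ℕ) (x : KK k N), (∀ α : Fin N →₀ ℕ, α.degree < n → coeff α x = 0) →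
    ∀ α : Fin N →₀ ℕ, α.degree ≤ n → coeff α (F x) = coeff α x) →
  ∀ U V : Submodule k (LS k), U ⊔ V = ⊤ → U ⊓ V = ⊥ →
    (∀ x : KK k N, ∃ u v : KK k N, CI U u ∧ CI V v ∧ x = F u + v) ∧
    ∀ u v : KK k N, CI U u → CI V v → F u + v = 0 → u = 0 ∧ v = 0

/-- DH: the deformed ring. `V = {v : cf v (-r) = 0 for all non-gaps r}`, `U = A`, complementary by KA; the elements of `V` have poles bounded by the largest
gap, so `V[[t]]` is in the image of `sw` (DF). `C (s^(-r)) = Φ u + v` (DG, `F = Φ`), `sw (A r) = Φ u`. The coefficients `cf (A r) (-r')` are read off from `v`. If `f ∈ LS B` with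
`sw f = Φ x`, `x` with coefficients in `A`, then `f - ∑ cf f (-r) • A r` (finite sum over the non-gaps `r ≤` pole order and `≥ 0`) has `sw` in `Φ(A[[t]]) ∩ V[[t]] = 0`. -/
def DH_stmt : Prop := ∀ (k : Type) [Field k] (N g : ℕ) (γ : Fin g → ℕ) (a : ℕ → LS k), IsK γ a →
  ∀ h : Fin N → LS k, ∃ A : ℕ → LS (BB k N), A 0 = 1 ∧
    (∀ r r' : ℕ, ¬ Gp γ r → ¬ Gp γ r' → cf (A r) (-(r' : ℤ)) = if r = r' then 1 else 0) ∧
    (∀ r, ¬ Gp γ r → mp (constantCoeff (σ := Fin N) (R := k)) (A r) = a r) ∧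
    ∀ f : LS (BB k N), f ∈ AA γ A ↔ ∃ x : KK k N, CI (AA γ a) x ∧ sw f = Phi h x

/-- the description of the deformed ring given by DH -/
def IsDef {k : Type} [Field k] {N g : ℕ} (γ : Fin g → ℕ) (a : ℕ → LS k) (h : Fin N → LS k)
    (A : ℕ → LS (BB k N)) : Prop := A 0 = 1 ∧
    (∀ r r' : ℕ, ¬ Gp γ r → ¬ Gp γ r' → cf (A r) (-(r' : ℤ)) = if r = r' then 1 else 0) ∧
    (∀ r, ¬ Gp γ r → mp (constantCoeff (σ := Fin N) (R := k)) (A r) = a r) ∧
    ∀ f : LS (BB k N), f ∈ AA γ A ↔ ∃ x : KK k N, CI (AA γ a) x ∧ sw f = Phi h x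

/-- DI: the deformed ring is a ring, and the residue theorem holds: `res (A r * dd (A r')) = resK (Φ x * ddK (Φ x')) = resK (Φ (x * ddK x') (1 + δ')) = resK (x * ddK x') = 0`
(DC, DE, DF; coefficientwise KB for `a`). -/
def DI_stmt : Prop := ∀ (k : Type) [Field k] (N g : ℕ) (γ : Fin g → ℕ) (a : ℕ → LS k), IsK γ a →
  ∀ (h : Fin N → LS k) (A : ℕ → LS (BB k N)), IsDef γ a h A →
    (∀ r r' : ℕ, ¬ Gp γ r → ¬ Gp γ r' → A r * A r' ∈ AA γ A) ∧
    ∀ r r' : ℕ, ¬ Gp γ r → ¬ Gp γ r' → res (A r * dd (A r')) = 0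

/-- DK: bounded generation of the differentials over a field of characteristic `p`: for large `M` the differentials with pole order `≤ M` are combinations of
`f dh` with pole orders `i` of `f`, `j` of `h`, `i, j ≥ c`, `i + j + 1 ≤ M`.
Proof: choose a non-gap `n₁ ≥ c` prime to `p`, `b = a n₁`, `dd b` has order exactly `-n₁ - 1`. For `M > M₀` (large: all `r ≥ c + 1` and `≥ M₀ - n₁ - 1` are non-gaps) an element of `Ω` with pole order `M` is, up to
smaller pole order, a multiple of `a (M - n₁ - 1) * dd b`; so `Ω_M = Ω_{M₀} + (terms of the required form)`. `Ω_{M₀} = Ω ∩ GE (-M₀)` is finite-dimensional (TB) and every element of it is a finite sum of some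
`f dh`; so it is in the span for large `M`. -/
def DK_stmt : Prop := ∀ (p : ℕ) [Fact p.Prime] (k : Type) [Field k] [CharP k p] (g : ℕ) (γ : Fin g → ℕ)
  (a : ℕ → LS k), IsK γ a → ∀ c : ℕ, ∃ M₀ : ℕ, ∀ M : ℕ, M₀ ≤ M → ∀ ω ∈ OmA γ a, ω ∈ GE k (-(M : ℤ)) →
    ω ∈ Submodule.span k {x : LS k | ∃ i j : ℕ, c ≤ i ∧ c ≤ j ∧ i + j + 1 ≤ M ∧
      ∃ f ∈ AA γ a, f ∈ GE k (-(i : ℤ)) ∧ ∃ h ∈ AA γ a, h ∈ GE k (-(j : ℤ)) ∧ x = f * dd h}

/-- DJ0: expansion in the `om n` (part of the proof of KC which does not use `IsK.gen`). `S = {n ≤ -2} ∪ {γ i - 1}`. -/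
def DJ0_stmt : Prop := ∀ (R : Type) [CommRing R] (g : ℕ) (γ : Fin g → ℕ) (a : ℕ → LS R),
  Function.Injective γ → (∀ i, 0 < γ i) → a 0 = 1 →
  (∀ r r' : ℕ, ¬ Gp γ r → ¬ Gp γ r' → cf (a r) (-(r' : ℤ)) = if r = r' then 1 else 0) →
  (∀ n : ℤ, (n ≤ -2 ∨ ∃ i, n = (γ i : ℤ) - 1) → ∀ r, ¬ Gp γ r → res (a r * om γ a n) = 0) ∧
  ∀ (M : ℕ) (η : LS R), (∀ r, ¬ Gp γ r → res (a r * η) = 0) → η ∈ GE R (-(M : ℤ)) →
    η = ∑ n ∈ Finset.Icc (-(M : ℤ)) (-2), cf η n • om γ a n +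
      ∑ i, cf η ((γ i : ℤ) - 1) • om γ a ((γ i : ℤ) - 1)

/-- DJ: smoothness of the deformed curve (Nakayama).
Proof: `c` = a bound for the gaps, `M ≥ M₀` (DK). `X` = the `B`-span of the `f * dd h`, `f, h ∈ AA γ A`, `f ∈ GE (-i)`, `h ∈ GE (-j)`, `i, j ≥ c`, `i + j + 1 ≤ M`; `Y` = the `B`-span of the `om γ A n`, `n ∈ S`, `n ≥ -M` (a finitely
generated `B`-module). `X ≤ Y` by DJ0 and DI. Every element of `AA γ a ∩ GE (-i)`, `i ≥ c`, lifts to `AA γ A ∩ GE (-i)` (combine the `A r`, `r ≤ i`). `mp` of `om γ A n` is `om γ a n ∈ Ω` (`IsK.gen`, `a`), so by DK there is `x ∈ X` such that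
`om γ A n - x` has all its coefficients in the maximal ideal `𝔪` of `B`; by DJ0 it is in `𝔪 Y`. So `Y ≤ X + 𝔪 Y`, and `Y ≤ X` by Nakayama (`Submodule.le_of_le_smul_of_le_jacobson_bot`). `X ≤ OmA γ A`. -/
def DJ_stmt : Prop := ∀ (p : ℕ) [Fact p.Prime] (k : Type) [Field k] [CharP k p] (N g : ℕ) (γ : Fin g → ℕ)
  (a : ℕ → LS k), IsK γ a → ∀ (h : Fin N → LS k) (A : ℕ → LS (BB k N)), IsDef γ a h A →
    ∀ n : ℤ, (n ≤ -2 ∨ ∃ i, n = (γ i : ℤ) - 1) → om γ A n ∈ OmA γ A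

/-- DL: the vector fields of the deformed curve, and the Kodaira-Spencer representatives.
`u = (1 + δ')^(-1)` (DD), `F x = Φ(x) u`, `U = TT ν τ`, `V = {v : cf v (-n) = 0 for all n ≥ 1 not among the ν}`, complementary by the echelon form. (1) `T n`: `C (s^(-n)) = F y + v`, `sw (T n) = F y`, for `n ≥ 1`, `n` not
in `ν`; `T n * dd (A r) = F(y) * ddK (Φ x) = Φ (y * ddK x)` and `y * ddK x` has coefficients in `AA γ a` (`IsT.act`). (2) `h i = s^(-ν i)`: `- C (h i) u = F y_i + v_i`, `sw (θ i) = v_i`, `M j i = cf (θ i) (-ν j)`; modulo `t` it is `-δ_ij`, so the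
determinant is a unit of the local ring `B`. For `x = Φ y`, `y` with coefficients in `AA γ a`: `∂_i x - h_i u ddK x = Φ(∂_i y)` (DC) and `F(y_i) ddK x = Φ(y_i ddK y)`, so
`∂_i x + v_i ddK x ∈ Φ(A[[t]])`. -/
def DL_stmt : Prop := ∀ (k : Type) [Field k] (N g : ℕ) (γ : Fin g → ℕ) (a : ℕ → LS k) (ν : Fin N → ℕ)
  (τ : ℕ → LS k), IsK γ a → IsT γ a ν τ → ∀ A : ℕ → LS (BB k N),
    IsDef γ a (fun i => mono (-(ν i : ℤ)) (1 : k)) A →
    ∃ (T : ℕ → LS (BB k N)) (θ : Fin N → LS (BB k N)) (M : Matrix (Fin N) (Fin N) (BB k N)),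
      IsT γ A ν T ∧ IsUnit M.det ∧ (∀ i, θ i - ∑ j, mono (-(ν j : ℤ)) (M j i) ∈ PS (BB k N)) ∧
      ∀ (i : Fin N) (r : ℕ), ¬ Gp γ r → cD (pdB k N i) (A r) + θ i * dd (A r) ∈ AA γ A

/-- DZ: THE DEFORMATION THEOREM (DH, DI, DJ, DL). -/
def DZ_stmt : Prop := ∀ (p : ℕ) [Fact p.Prime] (k : Type) [Field k] [CharP k p] (N g : ℕ)
  (γ : Fin g → ℕ) (a : ℕ → LS k) (ν : Fin N → ℕ) (τ : ℕ → LS k), IsK γ a → IsT γ a ν τ →
    ∃ (A : ℕ → LS (BB k N)) (T : ℕ → LS (BB k N)) (θ : Fin N → LS (BB k N))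
      (M : Matrix (Fin N) (Fin N) (BB k N)), IsK γ A ∧
      (∀ r, ¬ Gp γ r → mp (constantCoeff (σ := Fin N) (R := k)) (A r) = a r) ∧
      IsT γ A ν T ∧ IsUnit M.det ∧ (∀ i, θ i - ∑ j, mono (-(ν j : ℤ)) (M j i) ∈ PS (BB k N)) ∧
      ∀ (i : Fin N) (r : ℕ), ¬ Gp γ r → cD (pdB k N i) (A r) + θ i * dd (A r) ∈ AA γ A

/-! ## E: combination with parts A and P -/

/-- EA1: a `p`-nilpotent matrix has a vector `x ≠ 0` with `H x^(p) = 0`: let `n` be maximal with `MN p H n ≠ 0` and `x` a nonzero column of it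
(`MN p H (n+1) = H * (MN p H n)^(p)`). -/
def EA1_stmt : Prop := ∀ (p : ℕ) [Fact p.Prime] (K : Type) [Field K] [CharP K p] (g : ℕ)
  (H : Matrix (Fin g) (Fin g) K), 0 < g → MN p H g = 0 → ∃ x : Fin g → K, x ≠ 0 ∧ H.mulVec (frV p x) = 0

/-- EA2: a large minor. (`rank ≥ r` iff some `r × r` minor is nonzero; `μ` = this minor computed over `B`.) -/
def EA2_stmt : Prop := ∀ (B K : Type) [CommRing B] [Field K] (ψ : B →+* K) (g : ℕ)
  (H : Matrix (Fin g) (Fin g) B), g ≤ (H.map ψ).rank + 1 → ∃ μ : B, ψ μ ≠ 0 ∧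
    ∀ (K' : Type) [Field K'] (φ : B →+* K'), φ μ ≠ 0 → g ≤ (H.map φ).rank + 1

/-- EA: a one-parameter family. Proof: DZ gives the data over `B`. `H = HW p γ A` is `HW p γ a` modulo `t` (BC), `p`-nilpotent; PL gives `q`, `n ≥ N - g`; PN gives `K`, `ψ`, `S`. Base change by `ψ` (BC): `ATHyp` holds
(`cD D (mp ψ (A r)) = ∑ d_i • mp ψ (cD (pdB i) (A r))`), and over `K` the matrix `H` is `p`-nilpotent (PG), so EA1 and TH give `g ≤ rank + 1` over `K`. EA2: `μ ∉ q`. PO: `Φ : B → k[[X]]`; base change by `Φ`;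
`MN_g(Φ H) = Φ (MN_g H) = 0`. -/
def EA_stmt : Prop := ∀ (p : ℕ) [Fact p.Prime] (k : Type) [Field k] [IsAlgClosed k] [CharP k p] (N g : ℕ)
  (γ : Fin g → ℕ) (a : ℕ → LS k) (ν : Fin N → ℕ) (τ : ℕ → LS k), 0 < g → IsK γ a → IsT γ a ν τ →
  PNil p (HW p γ a) → ∃ A : ℕ → LS (PowerSeries k), IsK γ A ∧
    (∀ r, ¬ Gp γ r → mp (PowerSeries.constantCoeff (R := k)) (A r) = a r) ∧
    MN p (HW p γ A) g = 0 ∧
    ∀ (Ω : Type) [Field Ω] (φ : PowerSeries k →+* Ω), Function.Injective φ →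
      g ≤ ((HW p γ A).map φ).rank + 1

end

end AN
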