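import Pool.Agent.helper48.AN.SpecA

/-!
# Project an (MP_263b92_ag), part P: purity of the `p`-rank 0 locus in a formal power series ring

`B = k[[t_1, ..., t_N]]`, `H` a `g × g` matrix over `B` which is `p`-nilpotent at the closed point. There is a prime `q` of `B` with `H`
`p`-nilpotent modulo `q` and `B / q` finite over a power series ring in `n ≥ N - g` variables (PL); then `K = Frac (B / q)` has
`n` independent derivations (PN); and `B / q` has many points with values in `k[[X]]` (PO).

Rules as in part A (`import Pool.Agent.helper48.AN.SpecP`).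
-/

namespace AN

open scoped Classical
open MvPowerSeries (constantCoeff)

noncomputable section

abbrev BB (k : Type) [Field k] (N : ℕ) : Type := MvPowerSeries (Fin N) k

/-- `B / q` is module-finite over a power series ring in `n` variables -/
def Cfin (k : Type) [Field k] (N : ℕ) (q : Ideal (BB k N)) (n : ℕ) : Prop :=
  ∃ φ : BB k n →ₐ[k] BB k N ⧸ q, Function.Injective φ ∧ φ.toRingHom.Finite

/-- the `p`-rank of `H` at the prime `q` is `f` -/
def rkq (p : ℕ) {k : Type} [Field k] {N g : ℕ} (H : Matrix (Fin g) (Fin g) (BB k N))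
    (q : Ideal (BB k N)) (f : ℕ) : Prop :=
  ∀ (Ω : Type) [Field Ω] (ψ : BB k N →+* Ω), RingHom.ker ψ = q → (MN p (H.map ψ) g).rank = f

/-! ## power series rings -/

/-- PB: after a linear change of variables `X_{j+1} ↦ X_{j+1} + c_j X_0` (substitution, `MvPowerSeries.subst` / `substAlgHom`; the inverse is of the same form) a
nonzero power series is regular in the variable `X_0`. Proof: the lowest homogeneous part `F` of `f` is a nonzero polynomial, `k` is infinite, so
`F(1, c) ≠ 0` for some `c` (a polynomial with `F(1, c) = 0` for all `c` vanishes, `F` being homogeneous); the coefficient of `X_0^d` of the new series is `F(1, c)`. -/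
def PB_stmt : Prop := ∀ (k : Type) [Field k] [Infinite k] (n : ℕ) (f : BB k (n + 1)), f ≠ 0 →
  ∃ σ : BB k (n + 1) ≃ₐ[k] BB k (n + 1),
    PowerSeries.map (constantCoeff (σ := Fin n) (R := k)) (MvPowerSeries.finSuccEquiv k n (σ f)) ≠ 0

/-- PC: Noether normalisation of a hypersurface: PB and the Weierstrass preparation theorem (`PowerSeries.exists_isWeierstrassFactorization`,
`IsWeierstrassFactorizationAt.algEquivQuotient`, `Polynomial.IsDistinguishedAt.algEquivQuotient`; `BB k n` is local and adically complete): the quotient is `BB k n [T] / (F)`, `F` monic of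
degree `≥ 1` (as `π` is not a unit), free of positive rank over `BB k n`. -/
def PC_stmt : Prop := ∀ (k : Type) [Field k] [Infinite k] (n : ℕ) (π : BB k (n + 1)), π ≠ 0 → ¬ IsUnit π →
  ∃ φ : BB k n →ₐ[k] BB k (n + 1) ⧸ Ideal.span {π}, Function.Injective φ ∧ φ.toRingHom.Finite

/-- PA: power series rings over a field are factorial.
Proof: induction on `n`. `BB k (n+1)` is a Noetherian domain, so it is enough that every irreducible `f` is prime. By PB assume `f` regular in `X_0`, `f = unit * W`, `W`
a distinguished polynomial over `BB k n`. `W` is irreducible in `(BB k n)[T]` (factors of a distinguished polynomial are, up to units, distinguished, so non-units of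
the power series ring if of positive degree), hence prime there (Gauss, `BB k n` factorial), and `BB k (n+1) / (f) = (BB k n)[T] / (W)` is a domain. (Alternatively
`UniqueFactorizationMonoid.iff_exists_prime_mem_of_isPrime` as in `Mathlib/RingTheory/PowerSeries/Ideal.lean`: a nonzero prime contains a distinguished
polynomial, its factorisation in the factorial ring `(BB k n)[T]` gives an irreducible monic factor in the prime, which is prime.) -/
def PA_stmt : Prop := ∀ (k : Type) [Field k] [Infinite k] (n : ℕ), UniqueFactorizationMonoid (BB k n)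

/-! ## p-linear algebra -/

/-- PE: Lang: a `p`-linear map which is not nilpotent has a nonzero fixed vector.
Proof: `F x = H x^(p)`. `U = ` span of the image of `F^g` is nonzero (`MN p H g ≠ 0`) and `F : U → U` is bijective up to span (PF: the spans of `F^n` are stationary from `g` on, so `F` maps a
basis of `U` to a basis of `U`). Take `0 ≠ u ∈ U`, `r ≥ 1` minimal with `F^r u = ∑_{i<r} c_i F^i u`; not all `c_i` are 0 (injectivity of `F` on `U`). Look for `x = ∑_{i<r} y_i F^i u`:
`F x = ∑ y_i^p F^(i+1) u`; the equations `y_0 = y_{r-1}^p c_0`, `y_i = y_{i-1}^p + y_{r-1}^p c_i` reduce to one polynomial equation for `y_{r-1} = z`: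
`z = ∑_i c_i^(p^(r-1-i)) z^(p^(r-i))`, additive with derivative `-1` and some nonzero `c_i`, so it has a nonzero root. -/
def PE_stmt : Prop := ∀ (p : ℕ) [Fact p.Prime] (K : Type) [Field K] [IsAlgClosed K] [CharP K p] (g : ℕ)
  (H : Matrix (Fin g) (Fin g) K), MN p H g ≠ 0 → ∃ x : Fin g → K, x ≠ 0 ∧ x = H.mulVec (frV p x)

/-- PF: `MN p H (m+n) = MN p H m * (MN p H n)^(p^m)` (entrywise powers), so the column space of `MN p H (n+1)` is contained in that of `MN p H n`, and the ranks are
stationary from `g` on (the column space of `MN p H (n+1)` is the span of the image of that of `MN p H n` under `x ↦ H x^(p)`). -/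
def PF_stmt : Prop := ∀ (p : ℕ) [Fact p.Prime] (K : Type) [Field K] [CharP K p] (g : ℕ)
  (H : Matrix (Fin g) (Fin g) K), (∀ n, (MN p H (n + 1)).rank ≤ (MN p H n).rank) ∧
    ∀ n, g ≤ n → (MN p H n).rank = (MN p H g).rank

/-- PG: rank and homomorphisms: a field homomorphism preserves `p`-ranks, and the `MN` commute with ring homomorphisms. -/
def PG_stmt : Prop :=
  (∀ (p : ℕ) (R R' : Type) [CommRing R] [CommRing R'] (φ : R →+* R') (g : ℕ) (H : Matrix (Fin g) (Fin g) R)
    (n : ℕ), MN p (H.map φ) n = (MN p H n).map φ) ∧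
  (∀ (K L : Type) [Field K] [Field L] (φ : K →+* L) (m n : ℕ) (M : Matrix (Fin m) (Fin n) K),
    (M.map φ).rank = M.rank) ∧
  (∀ (R K : Type) [CommRing R] [Field K] (φ : R →+* K) (K' : Type) [Field K'] (φ' : R →+* K')
    (_ : RingHom.ker φ = RingHom.ker φ') (m n : ℕ) (M : Matrix (Fin m) (Fin n) R),
    (M.map φ).rank = (M.map φ').rank)

/-! ## purity -/

/-- PH: fixed vectors are not integral over a local ring at whose closed point the `p`-rank is 0.
Proof: suppose all `x i` are integral over `R`; `S` = integral closure of `R` in `Ω`, `M` a maximal ideal of `S` above that of `R`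
(lying over), `V` a valuation subring of `Ω` dominating `S_M` (`LocalSubring.exists_le_valuationSubring`). `x = MN_g(H) x^(p^g)` (iterate), the entries of `MN_g(H)` are in the maximal ideal, so
`x i ∈ 𝔪_V`. Let `x j ≠ 0` be such that all `x i / x j ∈ V`: `x j = ∑ H_ji x_i^p ∈ x_j^p V`, so `1 ∈ x_j^(p-1) V`, a contradiction. -/
def PH_stmt : Prop := ∀ (p : ℕ) [Fact p.Prime] (R : Type) [CommRing R] [IsLocalRing R] (g : ℕ)
  (H : Matrix (Fin g) (Fin g) R), (∀ i j, MN p H g i j ∈ IsLocalRing.maximalIdeal R) →
  ∀ (Ω : Type) [Field Ω] [CharP Ω p] (φ : R →+* Ω), Function.Injective φ → ∀ x : Fin g → Ω, x ≠ 0 →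
    x = (H.map φ).mulVec (frV p x) → ∃ i, ¬ φ.IsIntegralElem (x i)

/-- PI: an element which is not integral over a factorial ring `P` is not integral at some height one prime.
Proof: `K₀` = fraction field of `P` (inside `Ω`). The minimal polynomial of `x` over `K₀` has a coefficient `c ∉ P` (otherwise `x` is integral); `π` a prime with negative exponent in `c`;
`V₀ = P_(π)`, a discrete valuation ring with fraction field `K₀`. `x` is not integral over `V₀` (integrally closed: `minpoly.isIntegrallyClosed_eq_field_fractions`), so there is a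
valuation subring `V` of `Ω` containing `V₀` but not `x` (the integral closure is the intersection of the valuation subrings above; e.g. `V` dominates the localisation of `V₀[x⁻¹]` at a maximal ideal
containing `x⁻¹`). `𝔪_V ∩ V₀` is `0` or `π V₀`; if it is `0` then `K₀ ⊆ V`, and `V = Ω` because `Ω` is algebraic over `K₀`, a contradiction. -/
def PI_stmt : Prop := ∀ (P : Type) [CommRing P] [IsDomain P] [UniqueFactorizationMonoid P] (Ω : Type) [Field Ω]
  (φ : P →+* Ω), Function.Injective φ → (∀ y : Ω, ∃ F : Polynomial P, F ≠ 0 ∧ F.eval₂ φ y = 0) →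
  ∀ x : Ω, ¬ φ.IsIntegralElem x → ∃ π : P, Prime π ∧ ∃ V : ValuationSubring Ω, x ∉ V ∧
    (∀ c : P, φ c ∈ V) ∧ ∀ c : P, (φ c)⁻¹ ∈ V ∧ φ c ≠ 0 ↔ ¬ π ∣ c

/-- PJ: the `p`-rank drops. `V` a valuation ring with fraction field `Ω`, `H` over `V`, `x` a fixed vector over `Ω` not in `V^g`.
Proof: `f = rank MN_g(H)` over `Ω`; over the residue field the rank of `MN_g` is at most `f`; suppose it is `f`. Choose `j` with `y = x / x_j ∈ V^g` (so `x_j ∉ V`, `y_j = 1`):
`H y^(p) = x_j^(1-p) y ∈ 𝔪^g`, so `H̄ ȳ^(p) = 0`. `x = MN_g(H) x^(p^g)`, so `y` is in the column space of `MN_g(H)` over `Ω`; since an `f × f` minor of `MN_g(H)` is a unit of `V` (rank `f` of the reduction) and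
the rank is `f`, `y` is a combination over `V` of these `f` columns; so `ȳ` is in the column space of `MN_g(H̄)`. By PF `rank (H̄ MN_g(H̄)^(p)) = rank MN_{g+1}(H̄) = f = rank MN_g(H̄)^(p)`, so `H̄` is injective on the column space of
`MN_g(H̄)^(p)`, which contains `ȳ^(p)`; so `ȳ = 0`, but `ȳ_j = 1`. -/
def PJ_stmt : Prop := ∀ (p : ℕ) [Fact p.Prime] (Ω : Type) [Field Ω] [CharP Ω p] (V : ValuationSubring Ω) (g : ℕ)
  (H : Matrix (Fin g) (Fin g) V) (x : Fin g → Ω), x = (H.map (algebraMap V Ω)).mulVec (frV p x) →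
  (∃ i, x i ∉ V) →
    (MN p (H.map (IsLocalRing.residue V)) g).rank < (MN p (H.map (algebraMap V Ω)) g).rank

/-- PK: one step. Proof: `R = B / q` is local with `MN_g(H)` in the maximal ideal (PG), `P = BB k n → R` finite injective, `Ω` an algebraic closure of `Frac R`. `f > 0`, so `MN_g(H) ≠ 0` over `Ω` and there is a
fixed vector `x ≠ 0` (PE). Some `x i` is not integral over `R` (PH), so not over `P`. PI (PA) gives `π` and `V`; `R ⊆ V` (integral over `P`). `q'` = inverse image of `𝔪_V` in `B`; `P ∩ 𝔪_V = (π)`, so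
`P / (π) → B / q'` is finite and injective; `n = n' + 1` because `BB k 0` is a field; compose with PC. The rank at `q'` is that over the residue field of `V` (PG), smaller than `f` by PJ. -/
def PK_stmt : Prop := ∀ (p : ℕ) [Fact p.Prime] (k : Type) [Field k] [IsAlgClosed k] [CharP k p] (N g : ℕ)
  (H : Matrix (Fin g) (Fin g) (BB k N)), PNil p (H.map (constantCoeff (σ := Fin N) (R := k))) →
  ∀ (q : Ideal (BB k N)), q.IsPrime → ∀ n f : ℕ, Cfin k N q n → rkq p H q f → 0 < f →
    ∃ (q' : Ideal (BB k N)) (n' f' : ℕ), q'.IsPrime ∧ n = n' + 1 ∧ Cfin k N q' n' ∧ rkq p H q' f' ∧ f' < f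

/-- PL: PURITY. Proof: start with `q = 0`, `n = N` and the rank `f ≤ g`; iterate PK at most `f` times until the rank is 0, that is, `MN_g(H) ∈ q`. (`rkq p H q f` holds for exactly one `f`, PG.) -/
def PL_stmt : Prop := ∀ (p : ℕ) [Fact p.Prime] (k : Type) [Field k] [IsAlgClosed k] [CharP k p] (N g : ℕ)
  (H : Matrix (Fin g) (Fin g) (BB k N)), PNil p (H.map (constantCoeff (σ := Fin N) (R := k))) →
    ∃ (q : Ideal (BB k N)) (n : ℕ), q.IsPrime ∧ N ≤ n + g ∧ Cfin k N q n ∧ ∀ i j, MN p H g i j ∈ q

/-! ## derivations -/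

/-- PM1: `[K : K^p] = p^n` gives `n` independent derivations.
Proof: choose a chain `K^p = K_0 < K_1 < ... < K_m = K`, `K_i = K_{i-1}(x_i)`, `x_i^p ∈ K^p`, each of degree `p` (the polynomial `T^p - x_i^p` is the minimal polynomial), so `m = n`, and `K = K^p[T_1..T_n] / (T_i^p - x_i^p)`;
`∂/∂T_i` is well defined on `K`; `D_i x_j = δ_ij` implies independence. (Alternatively one derivation at a time: a `K_{i-1}`-derivation of `K_i` with `x_i ↦ 1` extends to `K` by `K = K_i[T]/..`.) -/
def PM1_stmt : Prop := ∀ (p : ℕ) [Fact p.Prime] (K : Type) [Field K] [CharP K p] (n : ℕ),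
  Module.finrank (frobenius K p).fieldRange K = p ^ n →
    ∃ D : Fin n → Derivation ℤ K K, LinearIndependent K D

/-- PM2: `[K : K^p]` is invariant under finite extensions: `[K : K₀^p] = [K : K₀] [K₀ : K₀^p] = [K : K^p] [K^p : K₀^p]` and `[K^p : K₀^p] = [K : K₀]`. -/
def PM2_stmt : Prop := ∀ (p : ℕ) [Fact p.Prime] (K₀ K : Type) [Field K₀] [Field K] [CharP K₀ p] [CharP K p]
  [Algebra K₀ K], FiniteDimensional K₀ K →
    Module.finrank (frobenius K p).fieldRange K = Module.finrank (frobenius K₀ p).fieldRange K₀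

/-- PM3: `B = k[[X]]` is free over `B^p` with basis `X^α`, `0 ≤ α_i < p` (`k` perfect); the fraction field `K` satisfies `K = K^p · B`
(`a / b = a b^(p-1) / b^p`), so `[K : K^p] = p^n`. -/
def PM3_stmt : Prop := ∀ (p : ℕ) [Fact p.Prime] (k : Type) [Field k] [IsAlgClosed k] [CharP k p] (n : ℕ)
  (K : Type) [Field K] [CharP K p] [Algebra (BB k n) K] [IsFractionRing (BB k n) K],
    Module.finrank (frobenius K p).fieldRange K = p ^ n

/-- PM4: derivations of a field receiving `B` are determined by their values on the variables: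
`b = ∑_α c_α^p X^α` (`0 ≤ α_i < p`), so `D (ψ b) = ∑ ψ(c_α)^p D (ψ X^α) = ∑_i D (ψ X_i) ψ (∂_i b)`. -/
def PM4_stmt : Prop := ∀ (p : ℕ) [Fact p.Prime] (k : Type) [Field k] [IsAlgClosed k] [CharP k p] (N : ℕ)
  (K : Type) [Field K] [CharP K p] (ψ : BB k N →+* K) (D : Derivation ℤ K K) (b : BB k N),
    D (ψ b) = ∑ i, D (ψ (MvPowerSeries.X i)) * ψ (MvPowerSeries.pderiv k i b)

/-- PN: the tangent space at the generic point of `B / q`.
Proof: `K` is the fraction field of `B / q`, finite over the fraction field of `BB k n` (`Cfin`), so PM3, PM2, PM1 give `n` independent derivations. `S` = the set of the vectors `(D (ψ X_i))_i`, `D` a derivation (a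
`K`-subspace of `K^N`); `D ↦ (D (ψ X_i))` is injective by PM4 (`K` is generated by the `ψ b` as a field, a derivation vanishing on the `ψ b` is 0). -/
def PN_stmt : Prop := ∀ (p : ℕ) [Fact p.Prime] (k : Type) [Field k] [IsAlgClosed k] [CharP k p] (N n : ℕ)
  (q : Ideal (BB k N)), q.IsPrime → Cfin k N q n → ∃ (K : Type) (_ : Field K) (_ : CharP K p)
    (ψ : BB k N →+* K) (S : Submodule K (Fin N → K)), RingHom.ker ψ = q ∧ n ≤ Module.finrank K S ∧
      ∀ d ∈ S, ∃ D : Derivation ℤ K K, ∀ b : BB k N,
        D (ψ b) = ∑ i, d i * ψ (MvPowerSeries.pderiv k i b)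

/-! ## points with values in `k[[X]]` -/

/-- PO1: a hom `BB k n → k[[X]]`, `n ≥ 1`, surjective, not killing a given `c ≠ 0`: `X_i ↦ λ_i X` with `λ ≠ 0`, `F(λ) ≠ 0` for the lowest homogeneous part `F` of `c`. -/
def PO1_stmt : Prop := ∀ (k : Type) [Field k] [Infinite k] (n : ℕ) (c : BB k (n + 1)), c ≠ 0 →
  ∃ ψ : BB k (n + 1) →ₐ[k] PowerSeries k, Function.Surjective ψ ∧ ψ c ≠ 0

/-- PO2: a domain `D` finite over `k[[X]]` embeds in `k[[X]]` (as a `k`-algebra).
Proof: `L` = fraction field of `D`, finite over `L₀ = k((X))`. `V` = a valuation subring of `L` dominating the image of `k[[X]]` (so `V ∩ L₀ = k[[X]]`, `D ⊆ V` by integrality). (a) For `0 ≠ x ∈ L` with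
`d = [L : L₀]` the elements `1, x, ..., x^d` are dependent over `L₀`; two terms of the relation have the same valuation, so `x^i X^j` is a unit of `V` for some `1 ≤ i ≤ d`, `j ∈ ℤ`; hence the value group is
`≅ ℤ` and `V` is a discrete valuation ring. (b) The residue field of `V` is algebraic over `k` (the residue field of `k[[X]]`): an element `v ∈ V` is algebraic over `L₀`, scale a relation so that all coefficients are in
`k[[X]]` and one is a unit, reduce; so it is `k`. (c) `u` a uniformiser: every `v ∈ V` has a unique expansion `v = ∑_{i<n} c_i u^i + u^n v'`, `c_i ∈ k`; `v ↦ ∑ c_i X^i` is an injective `k`-algebra homomorphism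
`V → k[[X]]` (`⋂ u^n V = 0`). -/
def PO2_stmt : Prop := ∀ (k : Type) [Field k] [IsAlgClosed k] (D : Type) [CommRing D] [IsDomain D]
  [Algebra k D] (φ : PowerSeries k →ₐ[k] D), Function.Injective φ → φ.toRingHom.Finite →
    ∃ χ : D →ₐ[k] PowerSeries k, Function.Injective χ

/-- PO: curve selection.
Proof: `R = B / q`, `φ : BB k n → R` finite injective. If `n = 0`: `R` is a domain finite over `k`, so `R = k`; take `b ↦ C (b(0))`. Let `n ≥ 1`. `μ̄ ≠ 0` in `R` is integral over `BB k n`, so it divides some
`φ c`, `c ≠ 0` (constant coefficient of the minimal equation). PO1: `ψ : BB k n → k[[X]]` surjective, `ψ c ≠ 0`. Lying over: a prime `Q` of `R` with `φ⁻¹ Q = ker ψ`; `D = R / Q` is a domain and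
`k[[X]] = BB k n / ker ψ → D` is injective and finite. Compose `B → R → D` with `χ` of PO2; `c ↦` nonzero, so `μ ↦` nonzero. Constant terms: for `b ∈ B` with `b(0) = 0` and all `λ ∈ k` the element `1 + λ b` is a unit, so
`1 + λ Φ(b)` is a unit of `k[[X]]` for all `λ`, so the constant term of `Φ(b)` is 0. -/
def PO_stmt : Prop := ∀ (k : Type) [Field k] [IsAlgClosed k] (N n : ℕ) (q : Ideal (BB k N)), q.IsPrime →
  Cfin k N q n → ∀ μ : BB k N, μ ∉ q → ∃ Φ : BB k N →ₐ[k] PowerSeries k, (∀ b ∈ q, Φ b = 0) ∧ Φ μ ≠ 0 ∧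
    ∀ b : BB k N, PowerSeries.constantCoeff (Φ b) = constantCoeff b

end

end AN
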