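import Pool.Agent.helper48.AN.SpecF

/-!
# Project an (MP_263b92_ag), part Z: from one-point data to function fields, good reduction, assembly

Rules as in part A (`import Pool.Agent.helper48.AN.SpecZ`).
-/

namespace AN

open scoped Classical
open Pool.Agent.helper53.AU

noncomputable section

/-- KF: the double annihilator of `A` is `A`.
Proof: `x = α + ∑ c_i e_i + o` (KA). `res (α η) = 0` for `η ∈ Ω` (KD). `η = om (γ i - 1)`: `c_i = 0` (KD, and `res (o η) = 0`). `η = om n`, `n ≤ -2`: `res (o * om n) = cf o (-1-n)` since `om n = s^n + (terms s^m, m ≥ -1)` and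
`o ∈ GE 1`. So `o = 0`. (The `om n`, `n ≤ -2` or `n = γ i - 1`, are in `Ω` by `IsK.gen`.) -/
def KF_stmt : Prop := ∀ (R : Type) [CommRing R] (g : ℕ) (γ : Fin g → ℕ) (a : ℕ → LS R), IsK γ a →
  ∀ x : LS R, (∀ η ∈ OmA γ a, res (x * η) = 0) → x ∈ AA γ a

/-- the function field of the curve: the subfield of `LS K` generated by `K` and `A` -/
def EF {K : Type} [Field K] {g : ℕ} (γ : Fin g → ℕ) (a : ℕ → LS K) : IntermediateField K (LS K) :=
  IntermediateField.adjoin K (AA γ a : Set (LS K))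

/-- ZA1: elements are quotients. (`AA` is a `K`-subalgebra by KB; the set of quotients is a field.) -/
def ZA1_stmt : Prop := ∀ (K : Type) [Field K] (g : ℕ) (γ : Fin g → ℕ) (a : ℕ → LS K), IsK γ a →
  ∀ x : LS K, x ∈ EF γ a ↔ ∃ α ∈ AA γ a, ∃ β ∈ AA γ a, β ≠ 0 ∧ x * β = α

/-- ZA2: the degree over `K(f)`.
Proof: `f` is transcendental: a polynomial of degree `d ≥ 1` in `f` has a nonzero coefficient at `s^(-n d)`. For each class `i` modulo `n` let `μ i` be the smallest non-gap in the class, `u i = a (μ i)`. Every `α ∈ A`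
is a combination of the `u i` with coefficients in `K[f]` (induction on the pole order: if it is `r`, then `r = μ i + n j`; subtract a multiple of `f^j u i`; `r` is a non-gap by KA). So the `K(f)`-span `V` of the `u i` contains `A`, it is closed
under multiplication (`u i * u j ∈ A`), finite-dimensional over `K(f)`, so a field; it is `E`. -/
def ZA2_stmt : Prop := ∀ (K : Type) [Field K] (g : ℕ) (γ : Fin g → ℕ) (a : ℕ → LS K), IsK γ a →
  ∀ (f : EF γ a) (n : ℕ), 0 < n → (f : LS K) ∈ AA γ a → (f : LS K) ∈ GE K (-(n : ℤ)) →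
    cf (f : LS K) (-(n : ℤ)) ≠ 0 →
    Transcendental K f ∧ FiniteDimensional (IntermediateField.adjoin K ({f} : Set (EF γ a))) (EF γ a) ∧
      degx K f ≤ n

/-- ZA: `E` is a function field (ZA2 with `f = a n`, `n > 0` a non-gap; it is in `E`). -/
def ZA_stmt : Prop := ∀ (K : Type) [Field K] (g : ℕ) (γ : Fin g → ℕ) (a : ℕ → LS K), IsK γ a →
  IsFF K (EF γ a)

/-- ZB0: the place at infinity: the order of Laurent series. (Uniformiser: quotient of `a n` and `a (n + 1)`, `n` large. The order of `LS K`: `HahnSeries.order`, or the smallest `n` with `cf f n ≠ 0`.) -/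
def ZB0_stmt : Prop := ∀ (K : Type) [Field K] (g : ℕ) (γ : Fin g → ℕ) (a : ℕ → LS K), IsK γ a →
  ∃ P₀ : Place K (EF γ a), Lau P₀ (algebraMap (EF γ a) (LS K))

/-- ZB1: `A` is the ring of the functions regular outside `P₀`.
Proof: `⊆`: `f ∈ A` not constant, `n = - P₀.ord f > 0` (KB); by aQZ3 the sum of the `max (- P.ord f) 0` over all places is `degx K f ≤ n` (ZA2), so there is no other pole. `⊇`: let `h ∈ Reg P₀`; by KF it is enough that
`res (h η) = 0` for `η = f * dd f'`, `f, f' ∈ A`: this is the residue theorem FC for `h f` and `f'`. -/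
def ZB1_stmt : Prop := ∀ (p : ℕ) [Fact p.Prime] (K : Type) [Field K] [IsAlgClosed K] [CharP K p] (g : ℕ)
  (γ : Fin g → ℕ) (a : ℕ → LS K), IsK γ a → ∀ P₀ : Place K (EF γ a), Lau P₀ (algebraMap (EF γ a) (LS K)) →
    ∀ x : LS K, x ∈ AA γ a ↔ ∃ f ∈ Reg P₀, x = algebraMap (EF γ a) (LS K) f

/-- ZB2: the number of gaps is determined by `A`. (The non-gaps are the pole orders of the nonzero elements of `A`, KA; so the ranges of `γ` and `γ'` agree.) -/
def ZB2_stmt : Prop := ∀ (K : Type) [Field K] (g g' : ℕ) (γ : Fin g → ℕ) (γ' : Fin g' → ℕ) (a a' : ℕ → LS K),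
  IsK γ a → IsK γ' a' → AA γ a = AA γ' a' → g = g'

/-- ZB: the genus is the number of gaps. (aQR2: there is a genus `g'`; FS for `E`, `P₀` (ZB0), the inclusion; ZB1, ZB2.) -/
def ZB_stmt : Prop := ∀ (p : ℕ) [Fact p.Prime] (K : Type) [Field K] [IsAlgClosed K] [CharP K p] (g : ℕ)
  (γ : Fin g → ℕ) (a : ℕ → LS K), IsK γ a → IsGenus K (EF γ a) g

/-- ZC: a function field is the quotient field of `Reg P₀`.
Proof: `f ≠ 0`, `D = - (N ∑_{P ≠ P₀ pole of f} P) + m P₀` with `N` large (aQV4) and `m` large; by aQR3 there is `0 ≠ b ∈ L(D)`; `b ∈ Reg P₀` and `b f ∈ Reg P₀`. -/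
def ZC_stmt : Prop := ∀ (k F : Type) [Field k] [IsAlgClosed k] [Field F] [Algebra k F], IsFF k F →
  ∀ (P₀ : Place k F) (f : F), ∃ b ∈ Reg P₀, b ≠ 0 ∧ f * b ∈ Reg P₀

/-- ZD: there is a place (aQZ3 for a transcendental element: `[F : k(x)] > 0`). -/
def ZD_stmt : Prop := ∀ (k F : Type) [Field k] [IsAlgClosed k] [Field F] [Algebra k F], IsFF k F →
  Nonempty (Place k F)

/-- ZE: division by `X`. (`x ∈ AA γ A` has coordinates `cf x (-r)` (KA); `mp constantCoeff x = 0` means that all coefficients are divisible by `X`. A nonzero Laurent series has a coefficient of minimal `X`-order.) -/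
def ZE_stmt : Prop := ∀ (k : Type) [Field k] (g : ℕ) (γ : Fin g → ℕ) (A : ℕ → LS (PowerSeries k)), IsK γ A →
  (∀ x ∈ AA γ A, mp (PowerSeries.constantCoeff (R := k)) x = 0 → ∃ y ∈ AA γ A, x = (PowerSeries.X : PowerSeries k) • y) ∧
  (∀ x ∈ AA γ A, x ≠ 0 → ∃ (n : ℕ) (y : LS (PowerSeries k)), y ∈ AA γ A ∧
    mp (PowerSeries.constantCoeff (R := k)) y ≠ 0 ∧ x = (PowerSeries.X : PowerSeries k) ^ n • y) ∧
  ∀ x ∈ AA γ (fun r => mp (algebraMap (PowerSeries k) (LaurentSeries k)) (A r)),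
    ∃ (n : ℕ) (y : LS (PowerSeries k)), y ∈ AA γ A ∧
      LS.C (algebraMap (PowerSeries k) (LaurentSeries k) PowerSeries.X) ^ n * x =
        mp (algebraMap (PowerSeries k) (LaurentSeries k)) y

/-- ZF: GOOD REDUCTION.
Proof: write `j = mp (algebraMap k[[X]] k((X)))` (injective), `A_R = AA γ A`, `ρ = mp constantCoeff : A_R → AA γ a = ι (Reg P₀)` (surjective: combine the `A r`). `O = {x ∈ E : x j(β) = j(α), α, β ∈ A_R, ρ β ≠ 0}`. It is a subring (`ρ` is a
ring homomorphism to a domain). Valuation ring: a nonzero `x ∈ E` is `j(α) / j(β)` with `α, β ∈ A_R` (ZA1, ZE third part), `α = X^m α'`, `β = X^n β'` (ZE second part); if `m ≥ n` then `x ∈ O`, otherwise `x⁻¹ ∈ O`. `π (x) = ι⁻¹(ρ α) / ι⁻¹(ρ β)`, well defined; surjective by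
ZC. `π x = 0` iff `ρ α = 0` iff `α = X α'` (ZE first part). `c ∈ k((X))`, `c ∈ O`: if `c ∉ k[[X]]` then `c⁻¹ ∈ X k[[X]]`, `0 = π(c⁻¹) π(c) = 1`. -/
def ZF_stmt : Prop := ∀ (k F₀ : Type) [Field k] [IsAlgClosed k] [Field F₀] [Algebra k F₀], IsFF k F₀ →
  ∀ (P₀ : Place k F₀) (ι : F₀ →+* LS k), Lau P₀ ι → ∀ (g : ℕ) (γ : Fin g → ℕ) (a : ℕ → LS k), IsK γ a →
    (∀ x : LS k, x ∈ AA γ a ↔ ∃ f ∈ Reg P₀, x = ι f) →
    ∀ A : ℕ → LS (PowerSeries k), IsK γ A →
      (∀ r, ¬ Gp γ r → mp (PowerSeries.constantCoeff (R := k)) (A r) = a r) →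
      GoodReduction k F₀ (EF γ (fun r => mp (algebraMap (PowerSeries k) (LaurentSeries k)) (A r)))

/-- ZG: CONSTANT FIELD EXTENSIONS.
Proof: `j` = the restriction of `mp (algebraMap K L)` (it maps `K` and `A` into `E'`). Elements of `E'` are quotients of elements of `AA` (ZA1, BC), which are finite combinations of the `j (a r)`. Independence: from `∑ l_i mp(v_i) = 0` take coefficients:
`∑ l_i cf(v_i)(m) = 0`; expand the `l_i` in a basis of `L / K`. -/
def ZG_stmt : Prop := ∀ (K L : Type) [Field K] [Field L] [Algebra K L] (g : ℕ) (γ : Fin g → ℕ)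
  (a : ℕ → LS K), IsK γ a →
    ∃ j : EF γ a →+* EF γ (fun r => mp (algebraMap K L) (a r)),
      IsConstExt K L (EF γ a) (EF γ (fun r => mp (algebraMap K L) (a r))) j

/-- ZR: a `p`-nilpotent Hasse-Witt matrix is singular (EA1: it has a nonzero kernel vector). -/
def ZR_stmt : Prop := ∀ (p : ℕ) [Fact p.Prime] (K : Type) [Field K] [CharP K p] (g : ℕ)
  (H : Matrix (Fin g) (Fin g) K), 0 < g → MN p H g = 0 → H.rank + 1 ≤ g

/-- ZZ: ASSEMBLY.
Proof: a place `P₀` (ZD), `ι` (FA), `γ, a` (FS), `ν, τ` (FT), `PNil` (FG), `A` (EA). `K = LaurentSeries k`, `a_K = mp (A r)`, `E = EF γ a_K`, `L = AlgebraicClosure K`, `a_L`, `E' = EF γ a_L`; BC, ZA, ZF, ZG, ZB; `MN p (HW p γ a_L) g = 0` (BC, `MN` commutes with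
ring homomorphisms), so `PRankZero` (FH1 with ZB0, ZB1); `aNumber + rank = g` (FH2), `g ≤ rank + 1` (EA, last part, with `Ω = L`), `rank + 1 ≤ g` (ZR). -/
def ZZ_stmt : Prop := Answer

end

end AN
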